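import Pool.Agent.KS6_81.EC.Tr

/-! The algebra is AF: decomposition rank zero. -/

set_option autoImplicit false
set_option linter.unusedVariables false

open scoped Matrix.Norms.L2Operator ENNReal Matrix

noncomputable section

namespace Pool.Agent.KS6_81.EC

theorem io_jm (p : ℕ) (k : Kp p) : (io p)ᴴ * jm p k * io p = k.1 := by
  rw [jm, Matrix.mul_add, Matrix.add_mul]
  rw [show (io p)ᴴ * (io p * k.1 * (io p)ᴴ) * io p = ((io p)ᴴ * io p) * k.1 * ((io p)ᴴ * io p) by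
    simp only [Matrix.mul_assoc], show (io p)ᴴ * (ka p * Matrix.diagonal k.2 * (ka p)ᴴ) * io p =
    ((io p)ᴴ * ka p) * Matrix.diagonal k.2 * ((ka p)ᴴ * io p) by simp only [Matrix.mul_assoc],
    io_io, io_ka]
  simp

theorem ka_jm (p : ℕ) (k : Kp p) : (ka p)ᴴ * jm p k * ka p = Matrix.diagonal k.2 := by
  rw [jm, Matrix.mul_add, Matrix.add_mul]
  rw [show (ka p)ᴴ * (io p * k.1 * (io p)ᴴ) * ka p = ((ka p)ᴴ * io p) * k.1 * ((io p)ᴴ * ka p) by
    simp only [Matrix.mul_assoc], show (ka p)ᴴ * (ka p * Matrix.diagonal k.2 * (ka p)ᴴ) * ka p =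
    ((ka p)ᴴ * ka p) * Matrix.diagonal k.2 * ((ka p)ᴴ * ka p) by simp only [Matrix.mul_assoc],
    ka_ka, io_ka]
  simp

/-- the sequence starting with a given pair -/
def kseq (d : ℕ) (k0 : Kp d) : ∀ p, Kp p
  | 0 => if h : d = 0 then h ▸ k0 else 0
  | p + 1 => if h : d = p + 1 then h ▸ k0 else jk p (kseq d k0 p)

theorem kseq_self (d : ℕ) (k0 : Kp d) : kseq d k0 d = k0 := by
  cases d with
  | zero => simp [kseq]
  | succ d => simp [kseq]

theorem kseq_succ {d p : ℕ} (h : d ≤ p) (k0 : Kp d) :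
    kseq d k0 (p + 1) = jk p (kseq d k0 p) := by
  rw [kseq, dif_neg (by omega)]

theorem kseq_eq {d p : ℕ} (h : d ≤ p) (k : ∀ p, Kp p) (hk : ∀ p ≥ d, k (p + 1) = jk p (k p)) :
    kseq d (k d) p = k p := by
  induction p, h using Nat.le_induction with
  | base => exact kseq_self d _
  | succ p hp ih => rw [kseq_succ hp, ih, hk p hp]

theorem kseq_hom {d p : ℕ} (h : d ≤ p) : ∃ H : Kp d →⋆ₐ[ℂ] Kp p, ∀ k, kseq d k p = H k := by
  induction p, h using Nat.le_induction with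
  | base => exact ⟨StarAlgHom.id ℂ _, fun k => kseq_self d k⟩
  | succ p hp ih =>
    obtain ⟨H, hH⟩ := ih
    refine ⟨(jkH p).comp H, fun k => ?_⟩
    rw [kseq_succ hp, hH]
    rfl

/-- the index set of the summands -/
abbrev IxF (d : ℕ) : Type :=
  (Σ p : Fin d, (Fin (2 ^ (p : ℕ)) → Fin (2 ^ d))) ⊕ (Unit ⊕ Fin (2 ^ d))

/-- the sizes of the summands -/
def nF (d : ℕ) : IxF d → Type
  | .inl x => Ix x.1
  | .inr (.inl _) => Ix d
  | .inr (.inr _) => Unit

instance fnF (d : ℕ) : ∀ i, Fintype (nF d i)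
  | .inl x => inferInstanceAs (Fintype (Ix x.1))
  | .inr (.inl _) => inferInstanceAs (Fintype (Ix d))
  | .inr (.inr _) => inferInstanceAs (Fintype Unit)

instance dnF (d : ℕ) : ∀ i, DecidableEq (nF d i)
  | .inl x => inferInstanceAs (DecidableEq (Ix x.1))
  | .inr (.inl _) => inferInstanceAs (DecidableEq (Ix d))
  | .inr (.inr _) => inferInstanceAs (DecidableEq Unit)

/-- the finite-dimensional algebra of depth `d` -/
def FF (d : ℕ) : FDA where
  ι := IxF d
  n := nF d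
  fι := inferInstance
  fn := fnF d
  dn := dnF d

/-- the components of positive depth -/
def lvlH (d : ℕ) (p : ℕ) (h : p < d) (t : Fin (2 ^ p) → Fin (2 ^ d)) :
    (FF d).alg →⋆ₐ[ℂ] Mt p where
  toFun f := f (.inl ⟨⟨p, h⟩, t⟩)
  map_one' := rfl
  map_mul' _ _ := rfl
  map_zero' := rfl
  map_add' _ _ := rfl
  commutes' _ := rfl
  map_star' _ := rfl

/-- the matrix component of depth zero -/
def topH (d : ℕ) : (FF d).alg →⋆ₐ[ℂ] Mt d where
  toFun f := f (.inr (.inl ()))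
  map_one' := rfl
  map_mul' _ _ := rfl
  map_zero' := rfl
  map_add' _ _ := rfl
  commutes' _ := rfl
  map_star' _ := rfl

/-- `1 × 1` matrices -/
def unitH : Matrix Unit Unit ℂ →⋆ₐ[ℂ] ℂ where
  toFun f := f () ()
  map_one' := by simp
  map_mul' _ _ := by simp [Matrix.mul_apply]
  map_zero' := rfl
  map_add' _ _ := rfl
  commutes' _ := by simp [Matrix.algebraMap_matrix_apply]
  map_star' _ := by simp [Matrix.star_apply]

/-- the scalar components as `1 × 1` matrices -/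
def botH' (d : ℕ) (j : Fin (2 ^ d)) : (FF d).alg →⋆ₐ[ℂ] Matrix Unit Unit ℂ where
  toFun f := f (.inr (.inr j))
  map_one' := rfl
  map_mul' _ _ := rfl
  map_zero' := rfl
  map_add' _ _ := rfl
  commutes' _ := rfl
  map_star' _ := rfl

/-- the scalar components -/
def botH (d : ℕ) (j : Fin (2 ^ d)) : (FF d).alg →⋆ₐ[ℂ] ℂ := unitH.comp (botH' d j)

/-- the pair of an element -/
def toK (d : ℕ) : (FF d).alg →⋆ₐ[ℂ] Kp d where
  toFun f := (topH d f, fun j => botH d j f)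
  map_one' := Prod.ext (map_one _) (funext fun j => map_one _)
  map_mul' f g := Prod.ext (map_mul _ _ _) (funext fun j => map_mul _ _ _)
  map_zero' := Prod.ext (map_zero _) (funext fun j => map_zero _)
  map_add' f g := Prod.ext (map_add _ _ _) (funext fun j => map_add _ _ _)
  commutes' c := Prod.ext (AlgHomClass.commutes _ c) (funext fun j => AlgHomClass.commutes _ c)
  map_star' f := Prod.ext (map_star _ _) (funext fun j => map_star _ _)

/-- the section of an element -/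
def secF (d : ℕ) (f : (FF d).alg) (p : ℕ) (x : Pt p) : Mt p :=
  if h : p < d then lvlH d p h (tr d x) f
  else (kseq d (toK d f) p).1

theorem secF_hom (d p : ℕ) (x : Pt p) :
    ∃ π : (FF d).alg →⋆ₐ[ℂ] Mt p, ∀ f, secF d f p x = π f := by
  by_cases h : p < d
  · refine ⟨lvlH d p h (tr d x), fun f => ?_⟩
    rw [secF, dif_pos h]
  · obtain ⟨H, hH⟩ := kseq_hom (not_lt.1 h)
    refine ⟨(StarAlgHom.fst ℂ _ _).comp (H.comp (toK d)), fun f => ?_⟩
    rw [secF, dif_neg h, hH]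
    rfl

theorem secF_norm (d : ℕ) (f : (FF d).alg) (p : ℕ) (x : Pt p) : ‖secF d f p x‖ ≤ ‖f‖ := by
  obtain ⟨π, hπ⟩ := secF_hom d p x
  rw [hπ]
  exact NonUnitalStarAlgHom.norm_apply_le π f

theorem secF_InS (d : ℕ) (f : (FF d).alg) : InS d (secF d f) := by
  refine ⟨fun p hp x x' hx => ?_, kseq d (toK d f), fun p hp => kseq_succ hp _,
    fun p hp x => ?_⟩
  · rcases hp.lt_or_eq with h | h
    · rw [secF, dif_pos h, secF, dif_pos h, hx]
    · subst h
      rw [secF, dif_neg (lt_irrefl _), secF, dif_neg (lt_irrefl _)]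
  · rw [secF, dif_neg (not_lt.2 hp)]

/-- the inclusion of the finite-dimensional algebra of depth `d` -/
def eF (d : ℕ) : (FF d).alg →⋆ₐ[ℂ] AA where
  toFun f := ⟨mkA (secF d f) ‖f‖ (secF_norm d f), Sinf_le ⟨d, secF_InS d f⟩⟩
  map_one' := by
    refine AA.ext fun p x => ?_
    obtain ⟨π, hπ⟩ := secF_hom d p x
    rw [map_one, ev_apply, mkA_apply, hπ, map_one]
  map_mul' f g := by
    refine AA.ext fun p x => ?_
    obtain ⟨π, hπ⟩ := secF_hom d p x
    rw [map_mul, ev_apply, ev_apply, ev_apply, mkA_apply, mkA_apply, mkA_apply, hπ, hπ, hπ, map_mul]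
  map_zero' := by
    refine AA.ext fun p x => ?_
    obtain ⟨π, hπ⟩ := secF_hom d p x
    rw [map_zero, ev_apply, mkA_apply, hπ, map_zero]
  map_add' f g := by
    refine AA.ext fun p x => ?_
    obtain ⟨π, hπ⟩ := secF_hom d p x
    rw [map_add, ev_apply, ev_apply, ev_apply, mkA_apply, mkA_apply, mkA_apply, hπ, hπ, hπ, map_add]
  commutes' c := by
    refine AA.ext fun p x => ?_
    obtain ⟨π, hπ⟩ := secF_hom d p x
    rw [ev_apply, mkA_apply, hπ, AlgHomClass.commutes, AlgHomClass.commutes]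
  map_star' f := by
    refine AA.ext fun p x => ?_
    obtain ⟨π, hπ⟩ := secF_hom d p x
    rw [map_star, ev_apply, ev_apply, mkA_apply, mkA_apply, hπ, hπ, map_star]

theorem ev_eF (d : ℕ) (f : (FF d).alg) (p : ℕ) (x : Pt p) : ev p x (eF d f) = secF d f p x := rfl

/-- evaluation as a linear map -/
def evL (p : ℕ) (x : Pt p) : AA →ₗ[ℂ] Mt p := (ev p x : AA →ₐ[ℂ] Mt p).toLinearMap

@[simp] theorem evL_apply (p : ℕ) (x : Pt p) (a : AA) : evL p x a = ev p x a := rfl

theorem isCP_evL (p : ℕ) (x : Pt p) : IsCP (evL p x) := isCP_hom (ev p x) _ fun _ => rfl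

/-- rows of the adjoint of `ka` -/
def wka (d : ℕ) (j : Fin (2 ^ d)) : Matrix Unit (Ix (d + 1)) ℂ :=
  (ka d)ᴴ.submatrix (fun _ => j) id

theorem wka_mul (d : ℕ) (j : Fin (2 ^ d)) (T : Mt (d + 1)) :
    (wka d j * T * (wka d j)ᴴ) () () = ((ka d)ᴴ * T * ka d) j j := by
  rw [Matrix.mul_apply, Matrix.mul_apply]
  refine Finset.sum_congr rfl fun s _ => ?_
  rw [Matrix.mul_apply, Matrix.mul_apply]
  simp [wka, Matrix.conjTranspose_apply]

/-- the components of the map from the algebra to the finite-dimensional algebra -/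
def psiC (d : ℕ) : ∀ i : (FF d).ι, AA →ₗ[ℂ] Matrix ((FF d).n i) ((FF d).n i) ℂ
  | .inl x => evL x.1 (rep x.2)
  | .inr (.inl _) => compr (io d)ᴴ ∘ₗ evL (d + 1) default
  | .inr (.inr j) => compr (wka d j) ∘ₗ evL (d + 1) default

/-- the map from the algebra to the finite-dimensional algebra -/
def psiF (d : ℕ) : AA →ₗ[ℂ] (FF d).alg := LinearMap.pi (psiC d)

theorem isCP_pi {A : Type} [NonUnitalCStarAlgebra A] (F : FDA) (ψ : A →ₗ[ℂ] F.alg)
    (h : ∀ i, IsCP ((LinearMap.proj i : F.alg →ₗ[ℂ] _) ∘ₗ ψ)) : IsCP ψ := by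
  refine isCP_of_family (fun i =>
    ((Pi.evalStarAlgHom ℂ (fun i : F.ι => Matrix (F.n i) (F.n i) ℂ) i :
      F.alg →⋆ₐ[ℂ] Matrix (F.n i) (F.n i) ℂ) : F.alg →⋆ₙₐ[ℂ] Matrix (F.n i) (F.n i) ℂ))
    (fun b hb => funext fun i => hb i) ψ fun i => ?_
  exact h i

theorem isCP_psiF (d : ℕ) : IsCP (psiF d) := by
  refine isCP_pi _ _ fun i => ?_
  rcases i with x | _ | j
  · exact isCP_evL _ _
  · have : IsCP (compr (io d)ᴴ ∘ₗ evL (d + 1) default : AA →ₗ[ℂ] Mt d) :=
      (isCP_compr _).comp (isCP_evL _ _)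
    exact this
  · have : IsCP (compr (wka d j) ∘ₗ evL (d + 1) default : AA →ₗ[ℂ] Matrix Unit Unit ℂ) :=
      (isCP_compr _).comp (isCP_evL _ _)
    exact this

theorem psiF_one (d : ℕ) : psiF d 1 = 1 := by
  funext i
  rcases i with x | _ | j
  · exact map_one (ev _ _)
  · change compr (io d)ᴴ (ev _ _ 1) = 1
    rw [map_one, compr_apply, Matrix.mul_one, Matrix.conjTranspose_conjTranspose]
    exact io_io d
  · change compr (wka d j) (ev _ _ 1) = 1
    ext a b
    rw [map_one, compr_apply, wka_mul, Matrix.mul_one, ka_ka, Matrix.one_apply, if_pos rfl,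
      Matrix.one_apply, if_pos rfl]

theorem norm_one_le' {A : Type} [CStarAlgebra A] : ‖(1 : A)‖ ≤ 1 := by
  rcases subsingleton_or_nontrivial A with h | h
  · rw [Subsingleton.elim (1 : A) 0, norm_zero]; exact zero_le_one
  · rw [CStarRing.norm_one]

theorem isCPC_psiF (d : ℕ) : IsCPC (psiF d) := by
  refine (isCP_psiF d).isCPC ?_
  rw [psiF_one]
  exact norm_one_le'

theorem eF_psiF (d : ℕ) (a : AA) (ha : InS d fun p x => ev p x a) : eF d (psiF d a) = a := by
  obtain ⟨h1, k, h2, h3⟩ := ha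
  beta_reduce at h1 h3
  refine AA.ext fun p x => ?_
  rw [ev_eF, secF]
  by_cases h : p < d
  · rw [dif_pos h]
    exact h1 p h.le _ _ (tr_rep x)
  · rw [dif_neg h]
    have h4 : toK d (psiF d a) = k d := by
      have h5 : ev (d + 1) default a = jm d (k d) := by
        rw [h3 (d + 1) (by omega), h2 d le_rfl]; rfl
      refine Prod.ext ?_ ?_
      · change compr (io d)ᴴ (ev _ _ a) = _
        rw [h5, compr_apply, Matrix.conjTranspose_conjTranspose, io_jm]
      · funext j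
        change compr (wka d j) (ev _ _ a) () () = _
        rw [h5, compr_apply, wka_mul, ka_jm, Matrix.diagonal_apply_eq]
    rw [h4, kseq_eq (not_lt.1 h) k h2, h3 p (not_lt.1 h)]

section dim

variable {A : Type} [CStarAlgebra A]

theorem HasContrDec.hasDec {d : ℕ} {G : Set A} {ε : ℝ} {r : ℕ} (h : HasContrDec A d G ε r) :
    HasDec A d G ε r := by
  obtain ⟨F, hF, ψ, φ, h1, h2, _, h4⟩ := h
  exact ⟨F, hF, ψ, φ, h1, h2, h4⟩

theorem hasContrDec_of (D : FDA) (ψ : A →ₗ[ℂ] D.alg) (hψ : IsCPC ψ) (e : D.alg →⋆ₐ[ℂ] A)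
    (G : Set A) (ε : ℝ) (h : ∀ a ∈ G, ‖e (ψ a) - a‖ ≤ ε) : HasContrDec A 0 G ε D.rank := by
  refine ⟨fun _ => D, by simp, LinearMap.pi fun _ => ψ, fun _ => (e : D.alg →ₐ[ℂ] A).toLinearMap,
    ⟨?_, ?_⟩, fun _ => ⟨isCPC_hom e _ fun _ => rfl, isOrderZero_hom e _ fun _ => rfl⟩, ?_, ?_⟩
  · exact isCP_of_family (fun j =>
      ((Pi.evalStarAlgHom ℂ (fun _ : Fin (0 + 1) => D.alg) j :
        (∀ _ : Fin (0 + 1), D.alg) →⋆ₐ[ℂ] D.alg) : (∀ _ : Fin (0 + 1), D.alg) →⋆ₙₐ[ℂ] D.alg))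
      (fun b hb => funext fun i => hb i) _ fun i => hψ.1
  · intro a
    rw [pi_norm_le_iff_of_nonneg (norm_nonneg _)]
    intro i
    exact hψ.2 a
  · intro f
    rw [Fin.sum_univ_one]
    exact (NonUnitalStarAlgHom.norm_apply_le e (f 0)).trans (norm_le_pi_norm f 0)
  · intro a ha
    rw [Fin.sum_univ_one]
    exact h a ha

end dim

theorem AA_dec (G : Finset AA) (ε : ℝ) (hε : 0 < ε) : ∃ r, HasContrDec AA 0 G ε r := by
  classical
  have h1 : ∀ a : AA, ∃ d : ℕ, ∃ b : AA, InS d (fun p x => ev p x b) ∧ ‖a - b‖ ≤ ε / 2 :=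
    fun a => a.approx (half_pos hε)
  choose d b hb hab using h1
  obtain ⟨D, hD⟩ : ∃ D, ∀ a ∈ G, d a ≤ D := ⟨G.sup d, fun a ha => Finset.le_sup ha⟩
  refine ⟨_, hasContrDec_of (FF D) (psiF D) (isCPC_psiF D) (eF D) _ _ fun a ha => ?_⟩
  have h2 : eF D (psiF D (b a)) = b a := eF_psiF D _ ((hb a).mono (hD a ha))
  have h3 : eF D (psiF D a) - a = eF D (psiF D (a - b a)) - (a - b a) := by
    rw [map_sub, map_sub, h2]
    abel
  rw [h3]
  refine (norm_sub_le _ _).trans ?_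
  have h4 := NonUnitalStarAlgHom.norm_apply_le (eF D) (psiF D (a - b a))
  have h5 := (isCPC_psiF D).2 (a - b a)
  linarith [hab a]

theorem decRank_AA : decRank AA = 0 := by
  refine le_antisymm ?_ bot_le
  refine (iInf₂_le 0 AA_dec).trans ?_
  simp

theorem nucDim_AA : nucDim AA = 0 := by
  refine le_antisymm ?_ bot_le
  refine (iInf₂_le 0 fun G ε hε => ?_).trans ?_
  · obtain ⟨r, hr⟩ := AA_dec G ε hε
    exact ⟨r, hr.hasDec⟩
  · simp

end Pool.Agent.KS6_81.EC
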