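import Pool.Agent.KS6_81.EC.Smp
import Pool.Agent.KS6_81.EC.Defs

/-! The algebra. -/

set_option autoImplicit false

open scoped Matrix.Norms.L2Operator ENNReal Matrix

noncomputable section

namespace Pool.Agent.KS6_81.EC

/-- the fibres -/
abbrev Fib (x : Σ p, Pt p) : Type := Mt x.1

/-- the algebra of all bounded sections -/
abbrev Am : Type := lp Fib ∞

instance instAm : CStarAlgebra Am where

theorem Am.norm_le {a : Am} {C : ℝ} (hC : 0 ≤ C) (h : ∀ p (x : Pt p), ‖a ⟨p, x⟩‖ ≤ C) :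
    ‖a‖ ≤ C := lp.norm_le_of_forall_le hC fun x => h x.1 x.2

theorem Am.norm_apply (a : Am) (p) (x : Pt p) : ‖a ⟨p, x⟩‖ ≤ ‖a‖ :=
  lp.norm_apply_le_norm ENNReal.top_ne_zero a ⟨p, x⟩

/-- build a bounded section -/
def mkA (f : ∀ p, Pt p → Mt p) (C : ℝ) (h : ∀ p x, ‖f p x‖ ≤ C) : Am :=
  ⟨fun x => f x.1 x.2, memℓp_infty ⟨C, by rintro _ ⟨x, rfl⟩; exact h x.1 x.2⟩⟩

@[simp] theorem mkA_apply (f : ∀ p, Pt p → Mt p) (C : ℝ) (h : ∀ p x, ‖f p x‖ ≤ C) (p) (x : Pt p) :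
    mkA f C h ⟨p, x⟩ = f p x := rfl

theorem Am.ext {a b : Am} (h : ∀ p (x : Pt p), a ⟨p, x⟩ = b ⟨p, x⟩) : a = b :=
  lp.ext (funext fun x => h x.1 x.2)

/-- evaluation -/
def evA (p : ℕ) (x : Pt p) : Am →⋆ₐ[ℂ] Mt p where
  toFun a := a ⟨p, x⟩
  map_one' := rfl
  map_mul' _ _ := rfl
  map_zero' := rfl
  map_add' _ _ := rfl
  commutes' _ := rfl
  map_star' _ := rfl

end Pool.Agent.KS6_81.EC
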