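import Pool.Agent.KS6_81.EC.CP

/-! Schwarz inequality and compressions. -/

set_option autoImplicit false

open scoped Matrix.Norms.L2Operator ENNReal Matrix

noncomputable section

namespace Pool.Agent.KS6_81.EC

section schwarz

variable {A B : Type} [CStarAlgebra A] [NonUnitalCStarAlgebra B]
  [PartialOrder B] [StarOrderedRing B]

/-- the corner embedding `b ↦ diag(b, 0)` -/
def corner : B →⋆ₙₐ[ℂ] CStarMatrix (Fin 2) (Fin 2) B where
  toFun b := CStarMatrix.ofMatrix !![b, 0; 0, 0]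
  map_smul' c b := by ext i j; fin_cases i <;> fin_cases j <;> simp
  map_zero' := by ext i j; fin_cases i <;> fin_cases j <;> simp
  map_add' a b := by ext i j; fin_cases i <;> fin_cases j <;> simp
  map_mul' a b := by
    ext i j
    fin_cases i <;> fin_cases j <;> simp [CStarMatrix.mul_apply, Fin.sum_univ_two]
  map_star' a := by
    ext i j
    fin_cases i <;> fin_cases j <;> simp [CStarMatrix.star_apply]

theorem corner_entry_nonneg {X : CStarMatrix (Fin 2) (Fin 2) B} (hX : 0 ≤ X) : 0 ≤ X 0 0 := by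
  obtain ⟨Z, rfl⟩ := (nonneg_iff_star X).1 hX
  rw [CStarMatrix.mul_apply]
  refine Finset.sum_nonneg fun l _ => ?_
  rw [CStarMatrix.star_apply]
  exact star_mul_self_nonneg _

theorem star_mul_le_aux {E : Type} [NonUnitalCStarAlgebra E] [PartialOrder E] [StarOrderedRing E]
    (X Y : E) (c : ℝ) (hc : ‖X * star X‖ ≤ c) :
    star (star X * Y) * (star X * Y) ≤ (c : ℂ) • (star Y * Y) := by
  have h1 : star (star X * Y) * (star X * Y) = star Y * (X * star X) * Y := by
    rw [star_mul, star_star]; simp only [mul_assoc]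
  rw [h1]
  refine (CStarAlgebra.star_left_conjugate_le_norm_smul (IsSelfAdjoint.mul_star_self X)).trans ?_
  have hnn : (0 : E) ≤ star Y * Y := star_mul_self_nonneg Y
  have h2 : ((c : ℂ) • (star Y * Y) : E) = c • (star Y * Y) := rfl
  rw [h2]
  exact smul_le_smul_of_nonneg_right hc hnn

/-- Schwarz inequality for completely positive maps. -/
theorem IsCP.schwarz {φ : A →ₗ[ℂ] B} (h : IsCP φ) (a : A) :
    star (φ a) * φ a ≤ ((‖φ 1‖ : ℝ) : ℂ) • φ (star a * a) := by
  obtain ⟨N, hN⟩ := h 2 !![1, a; 0, 0]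
  have h00 : φ 1 = star (N 0 0) * N 0 0 + star (N 1 0) * N 1 0 := by
    have := congrFun (congrFun hN 0) 0
    simpa [Matrix.mul_apply, Fin.sum_univ_two, Matrix.conjTranspose_apply] using this
  have h01 : φ a = star (N 0 0) * N 0 1 + star (N 1 0) * N 1 1 := by
    have := congrFun (congrFun hN 0) 1
    simpa [Matrix.mul_apply, Fin.sum_univ_two, Matrix.conjTranspose_apply] using this
  have h11 : φ (star a * a) = star (N 0 1) * N 0 1 + star (N 1 1) * N 1 1 := by
    have := congrFun (congrFun hN 1) 1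
    simpa [Matrix.mul_apply, Fin.sum_univ_two, Matrix.conjTranspose_apply] using this
  set X : CStarMatrix (Fin 2) (Fin 2) B := CStarMatrix.ofMatrix !![N 0 0, 0; N 1 0, 0] with hX
  set Y : CStarMatrix (Fin 2) (Fin 2) B := CStarMatrix.ofMatrix !![N 0 1, 0; N 1 1, 0] with hY
  have hXX : star X * X = corner (φ 1) := by
    rw [h00]
    ext i j
    fin_cases i <;> fin_cases j <;>
      simp [hX, corner, CStarMatrix.mul_apply, Fin.sum_univ_two, CStarMatrix.star_apply]
  have hXY : star X * Y = corner (φ a) := by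
    rw [h01]
    ext i j
    fin_cases i <;> fin_cases j <;>
      simp [hX, hY, corner, CStarMatrix.mul_apply, Fin.sum_univ_two, CStarMatrix.star_apply]
  have hYY : star Y * Y = corner (φ (star a * a)) := by
    rw [h11]
    ext i j
    fin_cases i <;> fin_cases j <;>
      simp [hY, corner, CStarMatrix.mul_apply, Fin.sum_univ_two, CStarMatrix.star_apply]
  have hn : ‖X * star X‖ ≤ ‖φ 1‖ := by
    rw [CStarRing.norm_self_mul_star, ← CStarRing.norm_star_mul_self, hXX]
    exact NonUnitalStarAlgHom.norm_apply_le corner _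
  have key := star_mul_le_aux X Y _ hn
  have h2 := corner_entry_nonneg (sub_nonneg.2 key)
  rw [hXY, hYY, ← map_star, ← map_mul] at h2
  rw [← sub_nonneg]
  exact h2

theorem IsCP.nonneg {A B : Type} [NonUnitalCStarAlgebra A] [NonUnitalCStarAlgebra B]
    [PartialOrder B] [StarOrderedRing B] {φ : A →ₗ[ℂ] B} (h : IsCP φ) (a : A) :
    0 ≤ φ (star a * a) := by
  obtain ⟨N, hN⟩ := h 1 !![a]
  have h00 : φ (star a * a) = star (N 0 0) * N 0 0 := by
    have := congrFun (congrFun hN 0) 0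
    simpa [Matrix.mul_apply, Matrix.conjTranspose_apply] using this
  rw [h00]
  exact star_mul_self_nonneg _

theorem IsCP.star_map {A B : Type} [CStarAlgebra A] [NonUnitalCStarAlgebra B]
    {φ : A →ₗ[ℂ] B} (h : IsCP φ) (a : A) : φ (star a) = star (φ a) := by
  obtain ⟨N, hN⟩ := h 2 !![1, a; 0, 0]
  have h01 : φ a = star (N 0 0) * N 0 1 + star (N 1 0) * N 1 1 := by
    have := congrFun (congrFun hN 0) 1
    simpa [Matrix.mul_apply, Fin.sum_univ_two, Matrix.conjTranspose_apply] using this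
  have h10 : φ (star a) = star (N 0 1) * N 0 0 + star (N 1 1) * N 1 0 := by
    have := congrFun (congrFun hN 1) 0
    simpa [Matrix.mul_apply, Fin.sum_univ_two, Matrix.conjTranspose_apply] using this
  rw [h01, h10]
  simp

/-- completely positive maps are bounded by their value at the unit -/
theorem IsCP.norm_le {φ : A →ₗ[ℂ] B} (h : IsCP φ) (a : A) : ‖φ a‖ ≤ ‖φ 1‖ * ‖a‖ := by
  let _ := CStarAlgebra.spectralOrder A
  let _ := CStarAlgebra.spectralOrderedRing A
  have h0 : (0 : B) ≤ φ 1 := by simpa using h.nonneg (1 : A)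
  have hs := h.schwarz a
  have h1 : φ (star a * a) ≤ ((‖a‖ ^ 2 : ℝ) : ℂ) • φ 1 := by
    have h2 : (0 : A) ≤ ((‖a‖ ^ 2 : ℝ) : ℂ) • (1 : A) - star a * a := by
      rw [sub_nonneg]
      have := CStarAlgebra.star_mul_le_algebraMap_norm_sq (a := a)
      refine this.trans (le_of_eq ?_)
      rw [Algebra.algebraMap_eq_smul_one]
      rfl
    obtain ⟨b, hb⟩ := (nonneg_iff_star _).1 h2
    have h3 := h.nonneg b
    rw [← hb, map_sub, map_smul, sub_nonneg] at h3
    exact h3
  have h4 : ‖φ (star a * a)‖ ≤ ‖a‖ ^ 2 * ‖φ 1‖ := by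
    refine (CStarAlgebra.norm_le_norm_of_nonneg_of_le (h.nonneg a) h1).trans ?_
    rw [norm_smul]
    simp
  have h5 : ‖φ a‖ ^ 2 ≤ (‖φ 1‖ * ‖a‖) ^ 2 := by
    have h6 : ‖φ a‖ ^ 2 = ‖star (φ a) * φ a‖ := by
      rw [CStarRing.norm_star_mul_self, sq]
    rw [h6]
    refine (CStarAlgebra.norm_le_norm_of_nonneg_of_le (star_mul_self_nonneg _) hs).trans ?_
    rw [norm_smul]
    have h7 : ‖((‖φ 1‖ : ℝ) : ℂ)‖ = ‖φ 1‖ := by simp
    rw [h7]
    calc ‖φ 1‖ * ‖φ (star a * a)‖ ≤ ‖φ 1‖ * (‖a‖ ^ 2 * ‖φ 1‖) := by gcongr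
      _ = (‖φ 1‖ * ‖a‖) ^ 2 := by ring
  exact (sq_le_sq₀ (norm_nonneg _) (by positivity)).1 h5

end schwarz

theorem IsCP.isCPC {A B : Type} [CStarAlgebra A] [NonUnitalCStarAlgebra B] {φ : A →ₗ[ℂ] B}
    (h : IsCP φ) (h1 : ‖φ 1‖ ≤ 1) : IsCPC φ := by
  let _ := CStarAlgebra.spectralOrder B
  let _ := CStarAlgebra.spectralOrderedRing B
  refine ⟨h, fun a => (h.norm_le a).trans ?_⟩
  calc ‖φ 1‖ * ‖a‖ ≤ 1 * ‖a‖ := by gcongr
    _ = ‖a‖ := one_mul _

/-- the compression `T ↦ W T Wᴴ` -/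
def compr {n n' : Type} [Fintype n] (W : Matrix n' n ℂ) :
    Matrix n n ℂ →ₗ[ℂ] Matrix n' n' ℂ where
  toFun T := W * T * Wᴴ
  map_add' S T := by rw [Matrix.mul_add, Matrix.add_mul]
  map_smul' c T := by simp

theorem compr_apply {n n' : Type} [Fintype n] (W : Matrix n' n ℂ) (T : Matrix n n ℂ) :
    compr W T = W * T * Wᴴ := rfl

theorem isCP_compr {n n' : Type} [Fintype n] [DecidableEq n] [Fintype n'] [DecidableEq n']
    [Nonempty n'] (W : Matrix n' n ℂ) : IsCP (compr W) := by
  classical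
  obtain ⟨u0⟩ := ‹Nonempty n'›
  intro k M
  change MPos _
  have key : (Mᴴ * M).map (compr W) = ∑ r : n,
      (Matrix.of fun l j => (Matrix.of fun u v => if u = u0 then (M l j * Wᴴ) r v else 0 :
        Matrix n' n' ℂ))ᴴ *
      (Matrix.of fun l j => (Matrix.of fun u v => if u = u0 then (M l j * Wᴴ) r v else 0 :
        Matrix n' n' ℂ)) := by
    ext i j u v
    have h1 : ((Mᴴ * M).map (compr W)) i j = ∑ l, (M l i * Wᴴ)ᴴ * (M l j * Wᴴ) := by
      simp only [Matrix.map_apply, Matrix.mul_apply (M := Mᴴ), map_sum, compr_apply]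
      refine Finset.sum_congr rfl fun l _ => ?_
      rw [Matrix.conjTranspose_mul, Matrix.conjTranspose_conjTranspose]
      simp only [Matrix.conjTranspose_apply, Matrix.star_eq_conjTranspose, Matrix.mul_assoc]
    have h2 : ((∑ r : n,
      (Matrix.of fun l j => (Matrix.of fun u v => if u = u0 then (M l j * Wᴴ) r v else 0 :
        Matrix n' n' ℂ))ᴴ *
      (Matrix.of fun l j => (Matrix.of fun u v => if u = u0 then (M l j * Wᴴ) r v else 0 :
        Matrix n' n' ℂ))) i j) u v = ∑ r, ∑ l, star ((M l i * Wᴴ) r u) * (M l j * Wᴴ) r v := by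
      rw [Matrix.sum_apply, Matrix.sum_apply]
      refine Finset.sum_congr rfl fun r _ => ?_
      rw [Matrix.mul_apply, Matrix.sum_apply]
      refine Finset.sum_congr rfl fun l _ => ?_
      rw [Matrix.conjTranspose_apply, Matrix.star_eq_conjTranspose, Matrix.mul_apply]
      rw [Finset.sum_eq_single u0]
      · simp [Matrix.conjTranspose_apply]
      · intro w _ hw
        simp [Matrix.conjTranspose_apply, hw]
      · simp
    rw [h1, h2, Finset.sum_comm, Matrix.sum_apply]
    refine Finset.sum_congr rfl fun l _ => ?_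
    rw [Matrix.mul_apply]
    rfl
  rw [key]
  exact MPos.sum _ fun r _ => ⟨_, rfl⟩


end Pool.Agent.KS6_81.EC
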