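import Mathlib

/-! Digits: the map which forgets every second binary digit. -/

set_option autoImplicit false
set_option linter.unusedVariables false

noncomputable section

namespace Pool.Agent.KS6_81.EC

/-- the number whose binary digits are the high bits of the last `k` digits of `N` to the
base `4` -/
def hb : ℕ → ℕ → ℕ
  | 0, _ => 0
  | k + 1, N => 2 * hb k (N / 4) + N / 2 % 2

/-- the number whose last `k` digits to the base `4` are twice the binary digits of `A` -/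
def sp : ℕ → ℕ → ℕ
  | 0, _ => 0
  | k + 1, A => 4 * sp k (A / 2) + 2 * (A % 2)

theorem hb_lt (k N : ℕ) : hb k N < 2 ^ k := by
  induction k generalizing N with
  | zero => simp [hb]
  | succ k ih =>
    have := ih (N / 4)
    rw [hb, pow_succ]
    omega

theorem sp_lt (k A : ℕ) : sp k A < 4 ^ k := by
  induction k generalizing A with
  | zero => simp [sp]
  | succ k ih =>
    have := ih (A / 2)
    rw [sp, pow_succ]
    omega

theorem hb_sp (k A : ℕ) (h : A < 2 ^ k) : hb k (sp k A) = A := by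
  induction k generalizing A with
  | zero => simp [hb]; simp at h; omega
  | succ k ih =>
    have h1 := ih (A / 2) (by rw [pow_succ] at h; omega)
    rw [hb, sp]
    have e1 : (4 * sp k (A / 2) + 2 * (A % 2)) / 4 = sp k (A / 2) := by omega
    have e2 : (4 * sp k (A / 2) + 2 * (A % 2)) / 2 % 2 = A % 2 := by omega
    rw [e1, e2, h1]
    omega

theorem hb_add (q k i r : ℕ) (h : r < 4 ^ k) :
    hb (q + k) (i * 4 ^ k + r) = hb q i * 2 ^ k + hb k r := by
  induction k generalizing r with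
  | zero => simp at h; subst h; simp [hb]
  | succ k ih =>
    have h1 := ih (r / 4) (by rw [pow_succ] at h; omega)
    rw [← Nat.add_assoc, hb, hb]
    have e1 : (i * 4 ^ (k + 1) + r) / 4 = i * 4 ^ k + r / 4 := by
      rw [pow_succ, ← mul_assoc]; omega
    have e2 : (i * 4 ^ (k + 1) + r) / 2 % 2 = r / 2 % 2 := by
      rw [pow_succ, ← mul_assoc]; omega
    rw [e1, e2, h1, pow_succ]
    ring

theorem sum_range_four {M : Type} [AddCommMonoid M] (n : ℕ) (f : ℕ → M) :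
    ∑ r ∈ Finset.range (n * 4), f r
      = ∑ r ∈ Finset.range n, (f (4 * r) + f (4 * r + 1) + f (4 * r + 2) + f (4 * r + 3)) := by
  induction n with
  | zero => simp
  | succ n ih =>
    rw [show (n + 1) * 4 = n * 4 + 1 + 1 + 1 + 1 by ring, Finset.sum_range_succ,
      Finset.sum_range_succ, Finset.sum_range_succ, Finset.sum_range_succ, ih,
      Finset.sum_range_succ, mul_comm n 4]
    simp only [add_assoc]

theorem sum_range_two {M : Type} [AddCommMonoid M] (n : ℕ) (f : ℕ → M) :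
    ∑ r ∈ Finset.range (n * 2), f r = ∑ r ∈ Finset.range n, (f (2 * r) + f (2 * r + 1)) := by
  induction n with
  | zero => simp
  | succ n ih =>
    rw [show (n + 1) * 2 = n * 2 + 1 + 1 by ring, Finset.sum_range_succ,
      Finset.sum_range_succ, ih, Finset.sum_range_succ, mul_comm n 2]
    simp only [add_assoc]

/-- every value is taken equally often -/
theorem sum_hb (k : ℕ) (F : ℕ → ℝ) :
    ∑ r ∈ Finset.range (4 ^ k), F (hb k r) = 2 ^ k * ∑ c ∈ Finset.range (2 ^ k), F c := by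
  induction k generalizing F with
  | zero => simp [hb]
  | succ k ih =>
    rw [pow_succ, sum_range_four, show (2 : ℕ) ^ (k + 1) = 2 ^ k * 2 from pow_succ 2 k,
      sum_range_two]
    have h1 : ∀ r, F (hb (k + 1) (4 * r)) + F (hb (k + 1) (4 * r + 1))
        + F (hb (k + 1) (4 * r + 2)) + F (hb (k + 1) (4 * r + 3))
        = 2 * (F (2 * hb k r) + F (2 * hb k r + 1)) := by
      intro r
      simp only [hb]
      rw [show 4 * r / 4 = r by omega, show (4 * r + 1) / 4 = r by omega,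
        show (4 * r + 2) / 4 = r by omega, show (4 * r + 3) / 4 = r by omega,
        show 4 * r / 2 % 2 = 0 by omega, show (4 * r + 1) / 2 % 2 = 0 by omega,
        show (4 * r + 2) / 2 % 2 = 1 by omega, show (4 * r + 3) / 2 % 2 = 1 by omega]
      simp only [add_zero]
      ring
    simp only [h1]
    have h2 := ih (fun c => 2 * (F (2 * c) + F (2 * c + 1)))
    beta_reduce at h2
    rw [h2, ← Finset.mul_sum]
    ring

/-- the digits of the frequency -/
def dgt (x : ℝ) (k : ℕ) : ℕ := ⌊4 ^ (k + 1) * x⌋₊ / 2 % 2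

/-- the frequency: every second binary digit of `x` -/
def gf (x : ℝ) : ℝ := ∑' k, (dgt x k : ℝ) / 2 ^ (k + 1)

theorem dgt_le (x : ℝ) (k : ℕ) : ((dgt x k : ℕ) : ℝ) ≤ 1 := by
  have : dgt x k ≤ 1 := by unfold dgt; omega
  exact_mod_cast this

theorem hasSum_geo : HasSum (fun k : ℕ => (1 : ℝ) / 2 ^ (k + 1)) 1 := by
  have h := hasSum_geometric_two.mul_left (1 / 2 : ℝ)
  rw [show (1 / 2 : ℝ) * 2 = 1 by norm_num] at h
  refine h.congr_fun ?_ |> fun h => h
  intro k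
  rw [pow_succ, one_div_pow]
  ring

theorem summable_gf (x : ℝ) : Summable fun k => (dgt x k : ℝ) / 2 ^ (k + 1) := by
  refine Summable.of_nonneg_of_le (fun k => by positivity) (fun k => ?_) hasSum_geo.summable
  have := dgt_le x k
  gcongr

/-- partial sums -/
theorem part_gf {x : ℝ} (hx : 0 ≤ x) (hx1 : x < 1) (D : ℕ) :
    ∑ k ∈ Finset.range D, (dgt x k : ℝ) / 2 ^ (k + 1) = (hb D ⌊4 ^ D * x⌋₊ : ℝ) / 2 ^ D := by
  induction D with
  | zero => simp [hb]
  | succ D ih =>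
    rw [Finset.sum_range_succ, ih]
    have h1 : ⌊4 ^ (D + 1) * x⌋₊ / 4 = ⌊4 ^ D * x⌋₊ := by
      have h2 := Nat.floor_div_natCast (4 ^ (D + 1) * x) 4
      rw [← h2]
      congr 1
      rw [pow_succ]
      push_cast
      ring
    rw [hb, h1, dgt]
    push_cast
    rw [pow_succ]
    field_simp
    ring

theorem gf_lo {x : ℝ} (hx : 0 ≤ x) (hx1 : x < 1) (D : ℕ) :
    (hb D ⌊4 ^ D * x⌋₊ : ℝ) / 2 ^ D ≤ gf x := by
  rw [← part_gf hx hx1 D]
  exact (summable_gf x).sum_le_tsum _ fun k _ => by positivity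

theorem gf_hi {x : ℝ} (hx : 0 ≤ x) (hx1 : x < 1) (D : ℕ) :
    gf x ≤ (hb D ⌊4 ^ D * x⌋₊ : ℝ) / 2 ^ D + (2 ^ D)⁻¹ := by
  rw [← part_gf hx hx1 D, gf, ← (summable_gf x).sum_add_tsum_nat_add D]
  gcongr
  have h1 : Summable fun k : ℕ => (1 : ℝ) / 2 ^ (k + 1) * (2 ^ D)⁻¹ :=
    hasSum_geo.summable.mul_right _
  have h2 : ∀ k, (dgt x (k + D) : ℝ) / 2 ^ (k + D + 1) ≤ (1 : ℝ) / 2 ^ (k + 1) * (2 ^ D)⁻¹ := by
    intro k
    have := dgt_le x (k + D)
    calc (dgt x (k + D) : ℝ) / 2 ^ (k + D + 1) ≤ 1 / 2 ^ (k + D + 1) := by gcongr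
      _ = _ := by rw [show k + D + 1 = (k + 1) + D by ring, pow_add]; field_simp
  have h3 := Summable.tsum_le_tsum h2 ((summable_nat_add_iff D).2 (summable_gf x)) h1
  refine h3.trans (le_of_eq ?_)
  rw [tsum_mul_right, hasSum_geo.tsum_eq, one_mul]

theorem gf_nonneg (x : ℝ) : 0 ≤ gf x := tsum_nonneg fun k => by positivity

theorem gf_le_one (x : ℝ) : gf x ≤ 1 := by
  rw [← hasSum_geo.tsum_eq]
  refine Summable.tsum_le_tsum (fun k => ?_) (summable_gf x) hasSum_geo.summable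
  have := dgt_le x k
  gcongr

/-- points in the same cell of depth `2 D` -/
theorem gf_dist {x x' : ℝ} (hx : 0 ≤ x) (hx1 : x < 1) (hx' : 0 ≤ x') (hx1' : x' < 1) (D : ℕ)
    (h : ⌊4 ^ D * x⌋₊ = ⌊4 ^ D * x'⌋₊) : |gf x - gf x'| ≤ (2 ^ D)⁻¹ := by
  have h1 := gf_lo hx hx1 D
  have h2 := gf_hi hx hx1 D
  have h3 := gf_lo hx' hx1' D
  have h4 := gf_hi hx' hx1' D
  rw [h] at h1 h2
  rw [abs_le]
  constructor <;> linarith

/-- points with finitely many digits -/
theorem gf_rat (K N : ℕ) (h : N < 4 ^ K) : gf ((N : ℝ) / 4 ^ K) = (hb K N : ℝ) / 2 ^ K := by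
  have h0 : (0 : ℝ) < 4 ^ K := by positivity
  have hx : (0 : ℝ) ≤ (N : ℝ) / 4 ^ K := by positivity
  have hx1 : (N : ℝ) / 4 ^ K < 1 := by
    rw [div_lt_one h0]; exact_mod_cast h
  have h1 : ∀ k, K ≤ k → dgt ((N : ℝ) / 4 ^ K) k = 0 := by
    intro k hk
    have h2 : (4 : ℝ) ^ (k + 1) * ((N : ℝ) / 4 ^ K) = ((4 * (4 ^ (k - K) * N) : ℕ) : ℝ) := by
      obtain ⟨j, rfl⟩ := Nat.exists_eq_add_of_le hk
      rw [Nat.add_sub_cancel_left]
      push_cast
      rw [show K + j + 1 = K + (j + 1) by ring, pow_add]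
      field_simp
      ring
    rw [dgt, h2, Nat.floor_natCast]
    omega
  rw [gf, ← (summable_gf _).sum_add_tsum_nat_add K, part_gf hx hx1]
  have h3 : ∀ k, (dgt ((N : ℝ) / 4 ^ K) (k + K) : ℝ) / 2 ^ (k + K + 1) = 0 := by
    intro k
    rw [h1 _ (by omega)]
    simp
  simp only [h3, tsum_zero, add_zero]
  have h4 : (4 : ℝ) ^ K * ((N : ℝ) / 4 ^ K) = N := by field_simp
  rw [h4, Nat.floor_natCast]

/-- every frequency is almost taken in every cell of its class -/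
theorem gf_approx (q i : ℕ) (hi : i < 4 ^ q) (γ : ℝ) (h1 : (hb q i : ℝ) ≤ 2 ^ q * γ)
    (h2 : 2 ^ q * γ < (hb q i : ℝ) + 1) {δ : ℝ} (hδ : 0 < δ) :
    ∃ x : ℝ, (i : ℝ) ≤ 4 ^ q * x ∧ 4 ^ q * x < (i : ℝ) + 1 ∧ |gf x - γ| ≤ δ := by
  have hγ : 0 ≤ γ := by
    have h0 : (0 : ℝ) < 2 ^ q := by positivity
    have h3 : (0 : ℝ) ≤ (hb q i : ℝ) := by positivity
    by_contra hc
    push Not at hc
    nlinarith
  obtain ⟨k, hk⟩ := exists_pow_lt_of_lt_one hδ (show (1 / 2 : ℝ) < 1 by norm_num)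
  have hfl : hb q i * 2 ^ k ≤ ⌊2 ^ (q + k) * γ⌋₊ := by
    rw [Nat.le_floor_iff (by positivity)]
    push_cast
    rw [pow_add]
    have : (0 : ℝ) < 2 ^ k := by positivity
    nlinarith
  have hfl2 : ⌊2 ^ (q + k) * γ⌋₊ < (hb q i + 1) * 2 ^ k := by
    rw [Nat.floor_lt (by positivity)]
    push_cast
    rw [pow_add]
    have : (0 : ℝ) < 2 ^ k := by positivity
    nlinarith
  set A := ⌊2 ^ (q + k) * γ⌋₊ - hb q i * 2 ^ k with hA
  have hA2 : A < 2 ^ k := by
    rw [add_mul, one_mul] at hfl2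
    omega
  have hsp := sp_lt k A
  have hN : i * 4 ^ k + sp k A < 4 ^ (q + k) := by
    rw [pow_add]
    have : (i + 1) * 4 ^ k ≤ 4 ^ q * 4 ^ k := Nat.mul_le_mul_right _ hi
    rw [add_mul, one_mul] at this
    omega
  refine ⟨((i * 4 ^ k + sp k A : ℕ) : ℝ) / 4 ^ (q + k), ?_, ?_, ?_⟩
  · have e1 : (4 : ℝ) ^ q * (((i * 4 ^ k + sp k A : ℕ) : ℝ) / 4 ^ (q + k))
        = i + (sp k A : ℝ) / 4 ^ k := by
      push_cast
      rw [pow_add]
      field_simp
    rw [e1]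
    have : (0 : ℝ) ≤ (sp k A : ℝ) / 4 ^ k := by positivity
    linarith
  · have e1 : (4 : ℝ) ^ q * (((i * 4 ^ k + sp k A : ℕ) : ℝ) / 4 ^ (q + k))
        = i + (sp k A : ℝ) / 4 ^ k := by
      push_cast
      rw [pow_add]
      field_simp
    rw [e1]
    have : (sp k A : ℝ) / 4 ^ k < 1 := by
      rw [div_lt_one (by positivity)]
      exact_mod_cast hsp
    linarith
  · rw [gf_rat _ _ hN, hb_add _ _ _ _ hsp, hb_sp _ _ hA2]
    have e2 : hb q i * 2 ^ k + A = ⌊2 ^ (q + k) * γ⌋₊ := by omega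
    rw [e2]
    have e3 := Nat.floor_le (show 0 ≤ 2 ^ (q + k) * γ by positivity)
    have e4 := Nat.lt_floor_add_one (2 ^ (q + k) * γ)
    have e5 : (0 : ℝ) < 2 ^ (q + k) := by positivity
    have e6 : ((⌊2 ^ (q + k) * γ⌋₊ : ℕ) : ℝ) / 2 ^ (q + k) - γ
        = (((⌊2 ^ (q + k) * γ⌋₊ : ℕ) : ℝ) - 2 ^ (q + k) * γ) / 2 ^ (q + k) := by
      field_simp
    rw [e6, abs_div, abs_of_pos e5, div_le_iff₀ e5]
    have e7 : |((⌊2 ^ (q + k) * γ⌋₊ : ℕ) : ℝ) - 2 ^ (q + k) * γ| ≤ 1 := by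
      rw [abs_le]; constructor <;> linarith
    refine e7.trans ?_
    have e8 : (1 / 2 : ℝ) ^ k * 2 ^ k = 1 := by rw [← mul_pow]; norm_num
    have e9 : (1 : ℝ) ≤ 2 ^ q := one_le_pow₀ (by norm_num)
    have e10 : (0 : ℝ) < 2 ^ k := by positivity
    rw [pow_add]
    calc (1 : ℝ) = (1 / 2) ^ k * 2 ^ k := e8.symm
      _ ≤ δ * 2 ^ k := by gcongr
      _ ≤ δ * (2 ^ q * 2 ^ k) := by
        gcongr
        nlinarith

end Pool.Agent.KS6_81.EC
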