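import Pool.Agent.KS6_81.EC.Lb2

/-! Minimal projections and functionals. -/

set_option autoImplicit false
set_option linter.unusedVariables false

open scoped Matrix.Norms.L2Operator ENNReal Matrix

noncomputable section

namespace Pool.Agent.KS6_81.EC

section om

variable {D : Type} [CStarAlgebra D] {p : ℕ} {Φ : D →ₗ[ℂ] Mt p}

theorem re_00_nonneg [PartialOrder (Mt p)] [StarOrderedRing (Mt p)] {X : Mt p} (h : 0 ≤ X) :
    0 ≤ (X none none).re := by
  obtain ⟨N, rfl⟩ := (nonneg_iff_star X).1 h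
  rw [star_mul_00, Complex.ofReal_re]
  positivity

theorem cp_nonneg (h : IsCP Φ) (a : D) : 0 ≤ (Φ (star a * a) none none).re := by
  let _ := CStarAlgebra.spectralOrder (Mt p)
  let _ := CStarAlgebra.spectralOrderedRing (Mt p)
  exact re_00_nonneg (h.nonneg a)

theorem cp_real (h : IsCP Φ) (a : D) :
    Φ (star a * a) none none = (((Φ (star a * a) none none).re : ℝ) : ℂ) := by
  let _ := CStarAlgebra.spectralOrder (Mt p)
  let _ := CStarAlgebra.spectralOrderedRing (Mt p)
  obtain ⟨N, hN⟩ := (nonneg_iff_star _).1 (h.nonneg a)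
  rw [hN, star_mul_00, Complex.ofReal_re]

theorem cp_schwarz (h : IsCP Φ) (h1 : ‖Φ 1‖ ≤ 1) (a : D) :
    ‖cO (Φ a)‖ ^ 2 ≤ (Φ (star a * a) none none).re := by
  let _ := CStarAlgebra.spectralOrder (Mt p)
  let _ := CStarAlgebra.spectralOrderedRing (Mt p)
  have h2 := re_00_nonneg (sub_nonneg.2 (h.schwarz a))
  rw [Matrix.sub_apply, star_mul_00, Complex.sub_re, Complex.ofReal_re, Matrix.smul_apply,
    smul_eq_mul, Complex.re_ofReal_mul] at h2
  have h3 := cp_nonneg h a
  have h4 := norm_nonneg (Φ 1)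
  nlinarith

theorem cp_one (h : IsCP Φ) (h1 : ‖Φ 1‖ ≤ 1) : (Φ 1 none none).re ≤ 1 :=
  (Complex.re_le_norm _).trans ((norm_00_le _).trans ((norm_cO_le _).trans h1))

/-- domination -/
theorem cp_dom (h : IsCP Φ) (a b : D) :
    (Φ (star b * (star a * a) * b) none none).re ≤ ‖a‖ ^ 2 * (Φ (star b * b) none none).re := by
  let _ := CStarAlgebra.spectralOrder D
  let _ := CStarAlgebra.spectralOrderedRing D
  have h2 : (0 : D) ≤ ((‖a‖ ^ 2 : ℝ) : ℂ) • (1 : D) - star a * a := by
    rw [sub_nonneg]
    refine (CStarAlgebra.star_mul_le_algebraMap_norm_sq (a := a)).trans (le_of_eq ?_)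
    rw [Algebra.algebraMap_eq_smul_one]
    rfl
  obtain ⟨z, hz⟩ := (nonneg_iff_star _).1 h2
  have h3 := cp_nonneg h (z * b)
  have h4 : star (z * b) * (z * b)
      = ((‖a‖ ^ 2 : ℝ) : ℂ) • (star b * b) - star b * (star a * a) * b := by
    have : star (z * b) * (z * b) = star b * (star z * z) * b := by
      rw [star_mul]; simp only [mul_assoc]
    rw [this, ← hz, mul_sub, sub_mul, mul_smul_comm, smul_mul_assoc, mul_one]
  rw [h4, map_sub, map_smul, Matrix.sub_apply, Complex.sub_re, Matrix.smul_apply, smul_eq_mul,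
    Complex.re_ofReal_mul] at h3
  linarith

/-- elements are close to multiples of the unit for a functional concentrated on a minimal
projection -/
theorem om_close (h : IsCP Φ) (h1 : ‖Φ 1‖ ≤ 1) (e : D) (he : star e = e) (he2 : e * e = e)
    {η : ℝ} (hη : η < 1) (hη0 : 0 ≤ η) (hω : 1 - η ≤ (Φ e none none).re) (a : D) (c : ℂ)
    (hc : e * a * e = c • e) {m : ℝ} (ha : ‖a‖ ≤ m) :
    ‖Φ a none none - c‖ ≤ (2 * Real.sqrt η + η) * m := by
  have hm : 0 ≤ m := (norm_nonneg _).trans ha
  have hne : ‖e‖ ≤ 1 := by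
    have e1 : ‖star e * e‖ = ‖e‖ * ‖e‖ := CStarRing.norm_star_mul_self
    rw [he, he2] at e1
    by_contra hcon
    push Not at hcon
    nlinarith
  have hne1 : ‖e‖ = 1 := by
    have e1 : ‖star e * e‖ = ‖e‖ * ‖e‖ := CStarRing.norm_star_mul_self
    rw [he, he2] at e1
    have e2 : ‖e‖ ≠ 0 := by
      intro h0
      rw [norm_eq_zero] at h0
      rw [h0, map_zero, Matrix.zero_apply, Complex.zero_re] at hω
      linarith
    have e3 : ‖e‖ * (‖e‖ - 1) = 0 := by linarith
    rcases mul_eq_zero.1 e3 with e4 | e4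
    · exact absurd e4 e2
    · linarith
  set q := 1 - e with hq
  have hqs : star q = q := by rw [hq, star_sub, star_one, he]
  have hqq : q * q = q := by rw [hq, sub_mul, one_mul, mul_sub, mul_one, he2]; abel
  have hωe : Φ e none none = (((Φ e none none).re : ℝ) : ℂ) := by
    have := cp_real h e
    rwa [he, he2] at this
  have hωe1 : (Φ e none none).re ≤ 1 := by
    have e1 := cp_nonneg h q
    rw [hqs, hqq, hq, map_sub, Matrix.sub_apply, Complex.sub_re] at e1
    have e2 := cp_one h h1
    linarith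
  have hωq : (Φ q none none).re ≤ η := by
    rw [hq, map_sub, Matrix.sub_apply, Complex.sub_re]
    have e2 := cp_one h h1
    linarith
  have hωq0 : 0 ≤ (Φ q none none).re := by
    have := cp_nonneg h q
    rwa [hqs, hqq] at this
  have key : ∀ b : D, ‖b‖ ≤ m → ‖Φ (b * q) none none‖ ≤ Real.sqrt η * m := by
    intro b hb
    have e1 := cp_schwarz h h1 (b * q)
    have e2 : star (b * q) * (b * q) = star q * (star b * b) * q := by
      rw [star_mul]; simp only [mul_assoc]
    rw [e2] at e1
    have e3 := cp_dom h b q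
    rw [hqs, hqq] at e3
    have e4 : ‖Φ (b * q) none none‖ ^ 2 ≤ (Real.sqrt η * m) ^ 2 := by
      rw [mul_pow, Real.sq_sqrt hη0]
      have e5 := norm_00_le (Φ (b * q))
      have e6 := norm_nonneg (Φ (b * q) none none)
      have e7 : ‖Φ (b * q) none none‖ ^ 2 ≤ ‖cO (Φ (b * q))‖ ^ 2 := by gcongr
      rw [hqs] at e1
      have e8 : ‖b‖ ^ 2 * (Φ q none none).re ≤ m ^ 2 * η := by gcongr
      linarith
    exact (sq_le_sq₀ (norm_nonneg _) (by positivity)).1 e4
  have k1 : ‖Φ (a * q) none none‖ ≤ Real.sqrt η * m := key a ha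
  have k2 : ‖Φ (q * a * e) none none‖ ≤ Real.sqrt η * m := by
    have e1 : Φ (q * a * e) = star (Φ (e * star a * q)) := by
      rw [← h.star_map]
      congr 1
      rw [star_mul, star_mul, star_star, hqs, he, mul_assoc]
    rw [e1, Matrix.star_apply, norm_star]
    refine key _ ?_
    refine (norm_mul_le _ _).trans ?_
    rw [norm_star]
    nlinarith [norm_nonneg a]
  have k3 : ‖Φ (e * a * e) none none - c‖ ≤ η * m := by
    rw [hc, map_smul, Matrix.smul_apply, smul_eq_mul, hωe]
    have e1 : c * (((Φ e none none).re : ℝ) : ℂ) - c = c * (((Φ e none none).re - 1 : ℝ) : ℂ) := by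
      push_cast; ring
    rw [e1, norm_mul, Complex.norm_real, Real.norm_eq_abs, mul_comm]
    have e2 : |(Φ e none none).re - 1| ≤ η := by
      rw [abs_le]; constructor <;> linarith
    have e3 : ‖c‖ ≤ m := by
      have e4 : ‖c • e‖ = ‖c‖ := by rw [norm_smul, hne1, mul_one]
      rw [← e4, ← hc]
      refine (norm_mul_le _ _).trans ?_
      rw [hne1, mul_one]
      refine (norm_mul_le _ _).trans ?_
      rw [hne1, one_mul]
      exact ha
    gcongr
  have k4 : Φ a none none - c = Φ (a * q) none none + Φ (q * a * e) none none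
      + (Φ (e * a * e) none none - c) := by
    have e1 : a = a * q + q * a * e + e * a * e := by
      rw [hq]; noncomm_ring
    have e2 : Φ a = Φ (a * q) + Φ (q * a * e) + Φ (e * a * e) := by
      rw [← map_add, ← map_add, ← e1]
    rw [e2, Matrix.add_apply, Matrix.add_apply]
    ring
  rw [k4]
  refine norm_add₃_le.trans ?_
  linarith

end om

section spec

open scoped ComplexOrder

theorem spec_one {n : Type} [Fintype n] [DecidableEq n] (P : Matrix n n ℂ)
    (hP : ∃ Z, P = star Z * Z) (hn : ‖P‖ ≤ 1) :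
    ∃ (e : n → Matrix n n ℂ) (lam : n → ℝ), (∀ l, star (e l) = e l) ∧ (∀ l, e l * e l = e l) ∧
      (∀ l m, l ≠ m → e l * e m = 0) ∧ (∑ l, e l = 1) ∧ (P = ∑ l, (lam l : ℂ) • e l) ∧
      (∀ l, 0 ≤ lam l) ∧ (∀ l, lam l ≤ 1) ∧ ∀ l a, ∃ c : ℂ, e l * a * e l = c • e l := by
  obtain ⟨Z, rfl⟩ := hP
  obtain ⟨U, ev, hev, hsp⟩ : ∃ (U : unitary (Matrix n n ℂ)) (ev : n → ℝ), (∀ i, 0 ≤ ev i) ∧
      star Z * Z = (U : Matrix n n ℂ) * Matrix.diagonal (fun i => (ev i : ℂ))
      * star (U : Matrix n n ℂ) := by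
    have hpos : (star Z * Z).PosSemidef := Matrix.posSemidef_conjTranspose_mul_self Z
    have hH := hpos.1
    exact ⟨hH.eigenvectorUnitary, hH.eigenvalues, hpos.eigenvalues_nonneg, hH.spectral_theorem⟩
  have hUU : star (U : Matrix n n ℂ) * U = 1 := Unitary.coe_star_mul_self U
  have hUU' : (U : Matrix n n ℂ) * star (U : Matrix n n ℂ) = 1 := Unitary.coe_mul_star_self U
  have hmul : ∀ A B : Matrix n n ℂ, (U : Matrix n n ℂ) * A * star (U : Matrix n n ℂ)
      * ((U : Matrix n n ℂ) * B * star (U : Matrix n n ℂ))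
      = (U : Matrix n n ℂ) * (A * B) * star (U : Matrix n n ℂ) := by
    intro A B
    calc (U : Matrix n n ℂ) * A * star (U : Matrix n n ℂ)
      * ((U : Matrix n n ℂ) * B * star (U : Matrix n n ℂ))
        = (U : Matrix n n ℂ) * A * (star (U : Matrix n n ℂ) * U) * B
          * star (U : Matrix n n ℂ) := by simp only [Matrix.mul_assoc]
      _ = _ := by rw [hUU]; simp only [Matrix.mul_assoc, Matrix.one_mul]
  refine ⟨fun r => (U : Matrix n n ℂ) * Matrix.single r r 1 * star (U : Matrix n n ℂ),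
    ev, fun l => ?_, fun l => ?_, fun l m hlm => ?_, ?_, ?_,
    hev, fun l => ?_, fun l a => ?_⟩
  · simp only [star_mul, star_star, Matrix.mul_assoc]
    congr 2
    rw [Matrix.star_eq_conjTranspose, Matrix.conjTranspose_single, star_one]
  · rw [hmul, Matrix.single_mul_single_same, mul_one]
  · rw [hmul, Matrix.single_mul_single_of_ne _ _ _ _ hlm, Matrix.mul_zero, Matrix.zero_mul]
  · rw [← Finset.sum_mul, ← Finset.mul_sum]
    have : ∑ r : n, Matrix.single r r (1 : ℂ) = 1 := by
      ext i j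
      rw [Matrix.sum_apply]
      by_cases hij : i = j
      · subst hij
        rw [Finset.sum_eq_single i]
        · simp
        · intro b _ hb; simp [Matrix.single_apply, hb]
        · simp
      · rw [Matrix.one_apply, if_neg hij]
        refine Finset.sum_eq_zero fun b _ => ?_
        rw [Matrix.single_apply, if_neg]
        rintro ⟨rfl, rfl⟩
        exact hij rfl
    rw [this, Matrix.mul_one, hUU']
  · rw [hsp]
    have h1 : Matrix.diagonal (fun i => (ev i : ℂ))
        = ∑ r, (ev r : ℂ) • Matrix.single r r (1 : ℂ) := by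
      ext i j
      rw [Matrix.sum_apply]
      by_cases hij : i = j
      · subst hij
        rw [Finset.sum_eq_single i]
        · simp
        · intro b _ hb; simp [Matrix.single_apply, hb]
        · simp
      · rw [Matrix.diagonal_apply_ne _ hij]
        symm
        refine Finset.sum_eq_zero fun b _ => ?_
        rw [Matrix.smul_apply, Matrix.single_apply, if_neg, smul_zero]
        rintro ⟨rfl, rfl⟩
        exact hij rfl
    rw [h1, Finset.mul_sum, Finset.sum_mul]
    refine Finset.sum_congr rfl fun r _ => ?_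
    rw [Matrix.mul_smul, Matrix.smul_mul]
  · have h1 : Matrix.diagonal (fun i => (ev i : ℂ))
        = star (U : Matrix n n ℂ) * (star Z * Z) * U := by
      rw [hsp]
      calc Matrix.diagonal (fun i => (ev i : ℂ))
          = 1 * Matrix.diagonal (fun i => (ev i : ℂ)) * 1 := by simp
        _ = _ := by rw [← hUU]; simp only [Matrix.mul_assoc]
    have h2 : ‖Matrix.diagonal (fun i => (ev i : ℂ))‖ ≤ 1 := by
      rw [h1, CStarRing.norm_mul_coe_unitary]
      have h3 : star (U : Matrix n n ℂ) = ((star U : unitary (Matrix n n ℂ)) : Matrix n n ℂ) := rfl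
      rw [h3, CStarRing.norm_coe_unitary_mul]
      exact hn
    rw [Matrix.l2_opNorm_diagonal] at h2
    have h3 := (norm_le_pi_norm (fun i => (ev i : ℂ)) l).trans h2
    rw [Complex.norm_real] at h3
    exact (le_abs_self _).trans h3
  · refine ⟨(star (U : Matrix n n ℂ) * a * (U : Matrix n n ℂ)) l l, ?_⟩
    have h1 : (U : Matrix n n ℂ) * Matrix.single l l 1 * star (U : Matrix n n ℂ) * a
        * ((U : Matrix n n ℂ) * Matrix.single l l 1 * star (U : Matrix n n ℂ))
        = (U : Matrix n n ℂ) * (Matrix.single l l 1 * (star (U : Matrix n n ℂ) * a * (U : Matrix n n ℂ))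
          * Matrix.single l l 1) * star (U : Matrix n n ℂ) := by
      simp only [Matrix.mul_assoc]
    have h2 : ∀ B : Matrix n n ℂ, Matrix.single l l 1 * B * Matrix.single l l 1
        = B l l • Matrix.single l l (1 : ℂ) := by
      intro B
      ext i j
      simp only [Matrix.smul_apply, smul_eq_mul]
      by_cases hi : i = l
      · subst hi
        by_cases hj : j = i
        · subst hj; simp
        · simp [Matrix.single_apply, Ne.symm hj]
      · simp [Matrix.single_apply, Ne.symm hi, hi]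
    rw [h1, h2, Matrix.mul_smul, Matrix.smul_mul]

theorem spec_all (D : FDA) (P : D.alg) (hP : ∃ Z, P = star Z * Z) (hn : ‖P‖ ≤ 1) :
    ∃ (e : (Σ i, D.n i) → D.alg) (lam : (Σ i, D.n i) → ℝ), (∀ l, star (e l) = e l) ∧
      (∀ l, e l * e l = e l) ∧ (∀ l m, l ≠ m → e l * e m = 0) ∧ (∑ l, e l = 1) ∧
      (P = ∑ l, (lam l : ℂ) • e l) ∧ (∀ l, 0 ≤ lam l) ∧ (∀ l, lam l ≤ 1) ∧
      ∀ l a, ∃ c : ℂ, e l * a * e l = c • e l := by
  classical
  obtain ⟨Z, hZ⟩ := hP
  have h := fun i => spec_one (P i) ⟨Z i, by rw [hZ]; rfl⟩ ((norm_le_pi_norm P i).trans hn)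
  choose e lam h1 h2 h3 h4 h5 h6 h7 h8 using h
  have hm : ∀ (i : D.ι) (A B : Matrix (D.n i) (D.n i) ℂ),
      (Pi.single i A : D.alg) * Pi.single i B = Pi.single i (A * B) :=
    fun i A B => by
      funext k
      by_cases hk : k = i
      · subst hk
        simp
      · rw [Pi.mul_apply, Pi.single_eq_of_ne hk, Pi.single_eq_of_ne hk, mul_zero,
          Pi.single_eq_of_ne hk]
  refine ⟨fun l => Pi.single l.1 (e l.1 l.2), fun l => lam l.1 l.2, fun l => ?_, fun l => ?_,
    fun l m hlm => ?_, ?_, ?_, fun l => h6 _ _, fun l => h7 _ _, fun l a => ?_⟩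
  · rw [← Pi.single_star, h1]
  · rw [hm, h2]
  · obtain ⟨i, r⟩ := l
    obtain ⟨j, t⟩ := m
    by_cases hij : i = j
    · subst hij
      rw [hm, h3 i r t (fun hrt => hlm (by rw [hrt])), Pi.single_zero]
    · funext k
      rw [Pi.mul_apply, Pi.zero_apply]
      by_cases hk : k = i
      · subst hk
        exact (congrArg _ (Pi.single_eq_of_ne hij _)).trans (mul_zero _)
      · exact (congrArg (· * _) (Pi.single_eq_of_ne hk _)).trans (zero_mul _)
  · rw [Fintype.sum_sigma]
    have : ∀ i, ∑ r, (Pi.single i (e i r) : D.alg) = Pi.single i 1 := by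
      intro i
      rw [← h4 i]
      exact (map_sum (AddMonoidHom.single (fun i => Matrix (D.n i) (D.n i) ℂ) i) _ _).symm
    simp only [this]
    exact Finset.univ_sum_single (1 : D.alg)
  · rw [Fintype.sum_sigma]
    have : ∀ i, ∑ r, (lam i r : ℂ) • (Pi.single i (e i r) : D.alg) = Pi.single i (P i) := by
      intro i
      have e1 : ∀ r, (lam i r : ℂ) • (Pi.single i (e i r) : D.alg)
          = Pi.single i ((lam i r : ℂ) • e i r) := fun r => (Pi.single_smul i _ _).symm
      simp only [e1]
      conv_rhs => rw [h5 i]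
      exact (map_sum (AddMonoidHom.single (fun i => Matrix (D.n i) (D.n i) ℂ) i) _ _).symm
    simp only [this]
    exact (Finset.univ_sum_single P).symm
  · obtain ⟨c, hc⟩ := h8 l.1 l.2 (a l.1)
    refine ⟨c, ?_⟩
    rw [← Pi.single_smul, ← hc]
    funext k
    by_cases hk : k = l.1
    · subst hk
      simp
    · rw [Pi.mul_apply, Pi.single_eq_of_ne hk]
      exact (congrArg _ (Pi.single_eq_of_ne hk _)).trans (mul_zero _)

theorem card_sigma_rank (D : FDA) : Fintype.card (Σ i, D.n i) = D.rank := Fintype.card_sigma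

end spec

end Pool.Agent.KS6_81.EC
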