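import Pool.Agent.KS6_81.EC.Vl

/-! The lower bound for the ranks. -/

set_option autoImplicit false
set_option linter.unusedVariables false

open scoped Matrix.Norms.L2Operator ENNReal Matrix

noncomputable section

namespace Pool.Agent.KS6_81.EC

/-- the numerators of the frequencies -/
def num (n : ℕ) (t : ℝ) (q C : ℕ) (b : Bool) : ℕ := ⌈n * |t| * C / 2 ^ q⌉₊ + b.toNat

/-- the sign of `t` -/
def sgz (t : ℝ) : ℤ := if 0 < t then 1 else -1

theorem sgz_mul_abs {t : ℝ} : (sgz t : ℝ) * |t| = t := by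
  unfold sgz
  split_ifs with h
  · rw [abs_of_pos h]; simp
  · rw [abs_of_nonpos (not_lt.1 h)]; simp

theorem sgz_cases (t : ℝ) : sgz t = 1 ∨ sgz t = -1 := by
  unfold sgz
  split_ifs
  · exact Or.inl rfl
  · exact Or.inr rfl

/-- signed numerators -/
def kap (n : ℕ) (t : ℝ) (q C : ℕ) (b : Bool) : ℤ := sgz t * (num n t q C b : ℕ)

theorem num_lo (n : ℕ) (t : ℝ) (q C : ℕ) (b : Bool) : n * |t| * C / 2 ^ q ≤ num n t q C b := by
  have h := Nat.le_ceil (n * |t| * C / 2 ^ q)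
  have h2 : (0 : ℝ) ≤ (b.toNat : ℕ) := Nat.cast_nonneg _
  rw [num]
  push_cast
  linarith

theorem num_hi {n : ℕ} {t : ℝ} {q : ℕ} (h2 : 2 * 2 ^ q ≤ n * |t|) (C : ℕ) (b : Bool) :
    (num n t q C b : ℝ) < n * |t| * (C + 1) / 2 ^ q := by
  have h := Nat.ceil_lt_add_one (show 0 ≤ n * |t| * C / 2 ^ q by positivity)
  have h3 : ((b.toNat : ℕ) : ℝ) ≤ 1 := by exact_mod_cast Bool.toNat_le b
  have h4 : (2 : ℝ) ≤ n * |t| / 2 ^ q := by
    rw [le_div_iff₀ (by positivity)]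
    exact h2
  have h5 : n * |t| * ((C : ℝ) + 1) / 2 ^ q = n * |t| * C / 2 ^ q + n * |t| / 2 ^ q := by ring
  rw [num, h5]
  push_cast
  linarith

theorem num_inj {n : ℕ} {t : ℝ} {q : ℕ} (h2 : 2 * 2 ^ q ≤ n * |t|) {C C' : ℕ} {b b' : Bool}
    (h : num n t q C b = num n t q C' b') : C = C' ∧ b = b' := by
  have key : ∀ (C C' : ℕ) (b b' : Bool), C < C' → num n t q C b < num n t q C' b' := by
    intro C C' b b' hC
    have e1 := num_hi h2 C b
    have e2 := num_lo n t q C' b'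
    have e3 : ((C : ℝ) + 1) ≤ C' := by exact_mod_cast hC
    have e4 : n * |t| * ((C : ℝ) + 1) / 2 ^ q ≤ n * |t| * C' / 2 ^ q := by gcongr
    have : (num n t q C b : ℝ) < num n t q C' b' := by linarith
    exact_mod_cast this
  have hC : C = C' := by
    rcases lt_trichotomy C C' with h3 | h3 | h3
    · have := key C C' b b' h3
      omega
    · exact h3
    · have := key C' C b' b h3
      omega
  subst hC
  refine ⟨rfl, ?_⟩
  unfold num at h
  cases b <;> cases b' <;> simp_all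

theorem kap_inj {n m k : ℕ} {t : ℝ} (hn : 0 < n) (ht : |t| ≤ 2 ^ m)
    (h2 : 2 * 2 ^ (m + k) ≤ n * |t|) {C0 C C' : ℕ} {b b' : Bool} (hC0 : C0 ≤ C)
    (hC : C < C0 + 2 ^ k) (hC0' : C0 ≤ C') (hC' : C' < C0 + 2 ^ k)
    (h : (n : ℤ) ∣ kap n t (m + k) C b - kap n t (m + k) C' b') : C = C' ∧ b = b' := by
  have bd : ∀ (C : ℕ) (b : Bool), C0 ≤ C → C < C0 + 2 ^ k →
      n * |t| * C0 / 2 ^ (m + k) ≤ num n t (m + k) C b ∧
      (num n t (m + k) C b : ℝ) < n * |t| * C0 / 2 ^ (m + k) + n := by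
    intro C b h3 h4
    have e1 := num_lo n t (m + k) C b
    have e2 := num_hi h2 C b
    have e3 : (C0 : ℝ) ≤ C := by exact_mod_cast h3
    have e4 : (C : ℝ) + 1 ≤ C0 + 2 ^ k := by exact_mod_cast h4
    have e5 : n * |t| * (C0 : ℝ) / 2 ^ (m + k) ≤ n * |t| * C / 2 ^ (m + k) := by gcongr
    have e6 : n * |t| * ((C : ℝ) + 1) / 2 ^ (m + k)
        ≤ n * |t| * (C0 + 2 ^ k) / 2 ^ (m + k) := by gcongr
    have e7 : n * |t| * ((C0 : ℝ) + 2 ^ k) / 2 ^ (m + k)
        = n * |t| * C0 / 2 ^ (m + k) + n * (|t| / 2 ^ m) := by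
      rw [pow_add]
      field_simp
    have e8 : |t| / 2 ^ m ≤ 1 := by
      rw [div_le_one (by positivity)]
      exact ht
    have e9 : (n : ℝ) * (|t| / 2 ^ m) ≤ n * 1 := by gcongr
    constructor <;> linarith
  obtain ⟨a1, a2⟩ := bd C b hC0 hC
  obtain ⟨a3, a4⟩ := bd C' b' hC0' hC'
  have b1 : (num n t (m + k) C b : ℝ) < num n t (m + k) C' b' + n := by linarith
  have b2 : (num n t (m + k) C' b' : ℝ) < num n t (m + k) C b + n := by linarith
  have b1' : num n t (m + k) C b < num n t (m + k) C' b' + n := by exact_mod_cast b1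
  have b2' : num n t (m + k) C' b' < num n t (m + k) C b + n := by exact_mod_cast b2
  have h5 : (n : ℤ) ∣ ((num n t (m + k) C b : ℕ) : ℤ) - (num n t (m + k) C' b' : ℕ) := by
    rcases sgz_cases t with h6 | h6
    · rw [kap, kap, h6, one_mul, one_mul] at h
      exact h
    · rw [kap, kap, h6, neg_one_mul, neg_one_mul] at h
      have := (dvd_neg (α := ℤ)).2 h
      rw [neg_sub_neg] at h
      rw [← dvd_neg, neg_sub]
      exact h
  obtain ⟨w, hw⟩ := h5
  have h7 : w = 0 := by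
    by_contra hw0
    rcases lt_or_gt_of_ne hw0 with h8 | h8
    · have : (n : ℤ) * w ≤ -n := by nlinarith
      omega
    · have : (n : ℤ) ≤ n * w := by nlinarith
      omega
  rw [h7, mul_zero] at hw
  exact num_inj h2 (by omega)

/-- bits of `y` -/
def bitf {B : ℕ} (y : Fin B → Bool) (u : ℕ) : Bool := if h : u < B then y ⟨u, h⟩ else false

theorem bitf_coe {B : ℕ} (y : Fin B → Bool) (u : Fin B) : bitf y u = y u := by
  rw [bitf, dif_pos u.2]

/-- the numerator in the cell `i` -/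
def kc (n : ℕ) (t : ℝ) (m k : ℕ) (y : Fin (4 ^ m * 2 ^ k) → Bool) (i : ℕ) : ℤ :=
  kap n t (m + k) (hb (m + k) i) (bitf y (i / 4 ^ k * 2 ^ k + hb k (i % 4 ^ k)))

theorem four_two (m k : ℕ) : 2 ^ (2 * (m + k)) = 4 ^ m * 4 ^ k := by
  rw [pow_mul, pow_add]
  norm_num

/-- the frequencies of the part `l` -/
def sigm {n : ℕ} (hn : 0 < n) (t : ℝ) (m k l : ℕ) (c : Fin (2 ^ k)) (b : Bool) : Fin n :=
  rho hn (kap n t (m + k) (hb m l * 2 ^ k + c) b)

theorem sigm_inj {n : ℕ} (hn : 0 < n) {t : ℝ} {m k : ℕ} (ht : |t| ≤ 2 ^ m)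
    (h2 : 2 * 2 ^ (m + k) ≤ n * |t|) (l : ℕ) (c : Fin (2 ^ k)) (b : Bool) (c' : Fin (2 ^ k))
    (b' : Bool) (h : sigm hn t m k l c b = sigm hn t m k l c' b') : c = c' ∧ b = b' := by
  have h1 := c.2
  have h3 := c'.2
  obtain ⟨e1, e2⟩ := kap_inj (C0 := hb m l * 2 ^ k) hn ht h2 (Nat.le_add_right _ _)
    (by omega) (Nat.le_add_right _ _) (by omega) (rho_inj hn h)
  exact ⟨Fin.ext (by omega), e2⟩

theorem normHat_vf {n : ℕ} (hn : 0 < n) (t : ℝ) (m k : ℕ) (y : Fin (4 ^ m * 2 ^ k) → Bool)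
    {l : ℕ} (hl : l < 4 ^ m) :
    NormHat (K := 2 ^ k) (P := 2 * (m + k)) (sigm hn t m k l)
      (fun c => bitf y (l * 2 ^ k + (c : ℕ)))
      (fun j : Fin n => vf m l (fun i : Fin (2 ^ (2 * (m + k))) => (kc n t m k y i : ℝ) / n) j) := by
  intro s
  have h0 : 2 * (m + k) - 2 * m = 2 * k := by omega
  have h4 : 2 ^ (2 * k) = 4 ^ k := by rw [pow_mul]; norm_num
  rw [norm_cO_sq', Fintype.sum_option]
  simp only [hat_vf_entry m l hn (fun i : Fin (2 ^ (2 * (m + k))) => kc n t m k y i),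
    Option.elim_none, Option.elim_some, norm_zero]
  set F : ℕ → ℝ := fun c => ((n : ℝ) ^ 2 * (1 / 2) ^ (2 * k)) *
    if s = rho hn (kap n t (m + k) (hb m l * 2 ^ k + c) (bitf y (l * 2 ^ k + c))) then 1 else 0
    with hF
  have h1 : ∀ i : Fin (2 ^ (2 * (m + k))), ‖(if s = rho hn (kc n t m k y i) then
      (n : ℂ) * vl m l (2 * (m + k)) (some i) none else 0)‖ ^ 2
      = (fun i : ℕ => if i / 4 ^ k = l then (fun r => F (hb k r)) (i % 4 ^ k) else 0) (i : ℕ) := by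
    intro i
    beta_reduce
    rw [vl_sn, h0, h4]
    by_cases h : (i : ℕ) / 4 ^ k = l
    · have hv : (if 2 * m ≤ 2 * (m + k) ∧ (i : ℕ) / 4 ^ k = l then r2 ^ (2 * k) else 0 : ℂ)
          = r2 ^ (2 * k) := if_pos ⟨by omega, h⟩
      rw [hv, if_pos h]
      have h5 : hb (m + k) (i : ℕ) = hb m l * 2 ^ k + hb k ((i : ℕ) % 4 ^ k) := by
        rw [← hb_add m k l _ (Nat.mod_lt _ (by positivity))]
        congr 1
        have h6 := Nat.div_add_mod (i : ℕ) (4 ^ k)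
        rw [h, mul_comm] at h6
        exact h6.symm
      have h7 : kc n t m k y (i : ℕ) = kap n t (m + k) (hb m l * 2 ^ k + hb k ((i : ℕ) % 4 ^ k))
          (bitf y (l * 2 ^ k + hb k ((i : ℕ) % 4 ^ k))) := by
        rw [kc, h5, h]
      rw [h7]
      simp only [hF]
      by_cases hs : s = rho hn (kap n t (m + k) (hb m l * 2 ^ k + hb k ((i : ℕ) % 4 ^ k))
        (bitf y (l * 2 ^ k + hb k ((i : ℕ) % 4 ^ k))))
      · rw [if_pos hs, if_pos hs, norm_mul, mul_pow, norm_r2_pow_sq, Complex.norm_natCast, mul_one]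
      · rw [if_neg hs, if_neg hs, norm_zero, mul_zero]
        norm_num
    · have hv : (if 2 * m ≤ 2 * (m + k) ∧ (i : ℕ) / 4 ^ k = l then r2 ^ (2 * k) else 0 : ℂ)
          = 0 := if_neg fun hh => h hh.2
      rw [hv, if_neg h]
      simp
  simp only [h1]
  have h5 := sum_block (M := 4 ^ k) (N := 2 ^ (2 * (m + k))) (l := l) (by positivity)
    (by rw [four_two]; exact Nat.mul_le_mul_right _ hl) (fun r => F (hb k r))
  rw [Fin.sum_univ_eq_sum_range (fun i : ℕ =>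
    if i / 4 ^ k = l then (fun r => F (hb k r)) (i % 4 ^ k) else 0), h5, sum_hb,
    ← Fin.sum_univ_eq_sum_range, hF, ← Finset.mul_sum]
  have h6 : (2 : ℝ) ^ k * ((n : ℝ) ^ 2 * (1 / 2) ^ (2 * k)) = (n : ℝ) ^ 2 / ((2 ^ k : ℕ) : ℝ) := by
    push_cast
    rw [two_mul, pow_add, one_div_pow]
    have : (0 : ℝ) < 2 ^ k := by positivity
    field_simp
  rw [← mul_assoc, h6, zero_pow two_ne_zero, zero_add]
  rfl

theorem exists_pt {n : ℕ} (hn : 0 < n) {t : ℝ} (ht : t ≠ 0) {m k : ℕ}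
    (h2 : 2 * 2 ^ (m + k) ≤ n * |t|) (y : Fin (4 ^ m * 2 ^ k) → Bool) {δ : ℝ} (hδ : 0 < δ) :
    ∃ x : Pt (2 * (m + k)), ∀ i : Fin (2 ^ (2 * (m + k))),
      |t * gf (x.c i) - (kc n t m k y i : ℝ) / n| ≤ δ := by
  have ht' : 0 < |t| := abs_pos.2 ht
  have hn' : (0 : ℝ) < n := by exact_mod_cast hn
  have hnt : 0 < n * |t| := by positivity
  have key : ∀ i : Fin (2 ^ (2 * (m + k))), ∃ x : ℝ, ((i : ℕ) : ℝ) ≤ 4 ^ (m + k) * x ∧
      4 ^ (m + k) * x < ((i : ℕ) : ℝ) + 1 ∧ |t * gf x - (kc n t m k y i : ℝ) / n| ≤ δ := by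
    intro i
    have hi : (i : ℕ) < 4 ^ (m + k) :=
      lt_of_lt_of_eq i.2 ((four_two m k).trans (pow_add 4 m k).symm)
    set C := hb (m + k) (i : ℕ) with hC
    set b := bitf y ((i : ℕ) / 4 ^ k * 2 ^ k + hb k ((i : ℕ) % 4 ^ k)) with hb'
    have e1 := num_lo n t (m + k) C b
    have e2 := num_hi h2 C b
    have e3 : (0 : ℝ) < 2 ^ (m + k) := by positivity
    obtain ⟨x, hx1, hx2, hx3⟩ := gf_approx (m + k) i hi ((num n t (m + k) C b : ℝ) / (n * |t|))
      (by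
        rw [← hC, ← mul_div_assoc, le_div_iff₀ hnt]
        rw [div_le_iff₀ e3] at e1
        linarith)
      (by
        rw [← hC, ← mul_div_assoc, div_lt_iff₀ hnt]
        rw [lt_div_iff₀ e3] at e2
        linarith) (div_pos hδ ht')
    refine ⟨x, hx1, hx2, ?_⟩
    have e4 : t * gf x - (kc n t m k y i : ℝ) / n
        = t * (gf x - (num n t (m + k) C b : ℝ) / (n * |t|)) := by
      have e5 : t * ((num n t (m + k) C b : ℝ) / (n * |t|)) = (kc n t m k y i : ℝ) / n := by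
        rw [kc, ← hC, ← hb', kap]
        push_cast
        have e6 : t / |t| = sgz t := by
          rw [div_eq_iff ht'.ne']
          exact sgz_mul_abs.symm
        calc t * ((num n t (m + k) C b : ℝ) / (n * |t|))
            = t / |t| * (num n t (m + k) C b : ℝ) / n := by field_simp
          _ = _ := by rw [e6]
      rw [mul_sub, e5]
    rw [e4, abs_mul]
    rw [le_div_iff₀ ht'] at hx3
    linarith
  choose x hx1 hx2 hx3 using key
  refine ⟨⟨x, fun i => ?_, fun i => ?_⟩, hx3⟩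
  · rw [four_pow]; exact hx1 i
  · rw [four_pow]; exact hx2 i

end Pool.Agent.KS6_81.EC
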