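import Pool.Agent.KS6_81.EC.Sec
import Pool.Agent.KS6_81.EC.Ent

/-! The Brown–Voiculescu entropy of the new automorphisms is zero. -/

set_option autoImplicit false
set_option linter.unusedVariables false

open scoped Matrix.Norms.L2Operator ENNReal Matrix

noncomputable section

namespace Pool.Agent.KS6_81.EC

/-- equivariance -/
theorem extq_conjW {q : ℕ} (t : ℝ) (g : ∀ p, Pt p → Mt p) (p : ℕ) (x : Pt p) :
    extq q (fun p x => wg t p x * g p x * star (wg t p x)) p x
      = wg t p x * extq q g p x * star (wg t p x) := by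
  refine extq_ind (q := q) (P := fun p x => extq q (fun p x => wg t p x * g p x * star (wg t p x)) p x
      = wg t p x * extq q g p x * star (wg t p x)) (fun p hp x => ?_) (fun p hp ih x => ?_) p x
  · rw [extq_le hp, extq_le hp]
  · rw [extq_succ hp, extq_succ hp]
    simp only [ih]
    rw [av, av, Matrix.mul_smul, Matrix.smul_mul, Matrix.mul_sum, Matrix.sum_mul]
    congr 1
    refine Finset.sum_congr rfl fun a _ => ?_
    have h1 : (Va p a)ᴴ * star (wg t (p + 1) x) = star (wg t p (smp x a)) * (Va p a)ᴴ := by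
      have h2 := congrArg Matrix.conjTranspose (wg_Va t p x a)
      rw [Matrix.conjTranspose_mul, Matrix.conjTranspose_mul] at h2
      exact h2
    calc Va p a * (wg t p (smp x a) * extq q g p (smp x a) * star (wg t p (smp x a)))
          * (Va p a)ᴴ
        = (Va p a * wg t p (smp x a)) * extq q g p (smp x a)
          * (star (wg t p (smp x a)) * (Va p a)ᴴ) := by simp only [Matrix.mul_assoc]
      _ = (wg t (p + 1) x * Va p a) * extq q g p (smp x a)
          * ((Va p a)ᴴ * star (wg t (p + 1) x)) := by rw [h1, wg_Va]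
      _ = _ := by simp only [Matrix.mul_assoc]

theorem system_errorW (q E : ℕ) (hqE : q ≤ 2 * E) (t : ℝ) (b b0 : AA) {d : ℕ} (hdE : d ≤ 2 * E)
    (hb0 : InS d fun p x => ev p x b0) {ε : ℝ} (hε : 0 < ε) (hbb : ‖b - b0‖ ≤ ε / 8)
    (hq : ∀ p x, ‖extq q (fun p x => ev p x b) p x - ev p x b‖ ≤ ε / 2)
    (hE : 4 * Real.pi * ‖b‖ * |t| * (2 ^ E)⁻¹ ≤ ε / 4) :
    ‖phiG q (2 * E) hqE (psiG q (2 * E) (WA t * b * star (WA t))) - WA t * b * star (WA t)‖
      ≤ ε := by
  set a := WA t * b * star (WA t) with ha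
  have hev : ∀ p (x : Pt p), ev p x a = wg t p x * ev p x b * star (wg t p x) := fun p x => by
    rw [ha, map_mul, map_mul, map_star, ev_WA]
  refine AA.norm_le hε.le fun p x => ?_
  rw [map_sub, ev_phiG]
  have h1 : extq q (fun p x => ev p x a) p x
      = wg t p x * extq q (fun p x => ev p x b) p x * star (wg t p x) := by
    simp only [hev]
    exact extq_conjW t _ p x
  have h2 : ‖extq q (fun p x => ev p x a) p x - ev p x a‖ ≤ ε / 2 := by
    rw [h1, hev, ← mul_sub_right_distrib, ← mul_sub]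
    refine (norm_mul_le _ _).trans ?_
    rw [norm_star]
    have e1 := norm_wg_le t p x
    calc ‖wg t p x * (extq q (fun p x => ev p x b) p x - ev p x b)‖ * ‖wg t p x‖
        ≤ (1 * (ε / 2)) * 1 := by
          gcongr
          exact (norm_mul_le _ _).trans (by gcongr; exact hq p x)
      _ = ε / 2 := by ring
  have h3 : ‖extq q (fun p x => secG q (2 * E) (psiG q (2 * E) a) p x - ev p x a) p x‖
      ≤ ε / 2 := by
    refine norm_extq_le _ (by positivity) (fun p hp x => ?_) p x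
    rw [secG, dif_pos hp, coH_psiG]
    set x' := rep (tr (2 * E) x) with hx'
    have htr : tr (2 * E) x' = tr (2 * E) x := tr_rep x
    rw [hev, hev]
    have e1 : ‖ev p x' b - ev p x b‖ ≤ ε / 4 := by
      have e2 : ev p x' b0 = ev p x b0 := (hb0.mono hdE).1 p (hp.trans hqE) x' x htr
      have e3 : ev p x' b - ev p x b = ev p x' (b - b0) - ev p x (b - b0) := by
        rw [map_sub, map_sub, e2]; abel
      rw [e3]
      refine (norm_sub_le _ _).trans ?_
      have e4 := (b - b0).norm_ev p x'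
      have e5 := (b - b0).norm_ev p x
      linarith
    refine (conj_dist _ _ _ _ (norm_wg_le t p x) (norm_wg_le t p x') (b.norm_ev p x)
      (b.norm_ev p x') (wg_dist htr t) e1).trans ?_
    have e6 : 2 * ‖b‖ * (2 * Real.pi * |t| * (2 ^ E)⁻¹)
        = 4 * Real.pi * ‖b‖ * |t| * (2 ^ E)⁻¹ := by
      ring
    rw [e6]
    linarith
  rw [extq_sub] at h3
  have h4 : extq q (secG q (2 * E) (psiG q (2 * E) a)) p x - ev p x a
      = (extq q (fun p x => secG q (2 * E) (psiG q (2 * E) a) p x) p x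
        - extq q (fun p x => ev p x a) p x)
      + (extq q (fun p x => ev p x a) p x - ev p x a) := by abel
  rw [h4]
  refine (norm_add_le _ _).trans ?_
  linarith

theorem pow_clog_le (n : ℕ) (hn : 1 ≤ n) : 2 ^ Nat.clog 2 n ≤ 2 * n := by
  rcases Nat.lt_or_ge 1 n with h | h
  · have e1 := Nat.pow_pred_clog_lt_self (b := 2) (by norm_num) h
    have e2 : 0 < Nat.clog 2 n := Nat.clog_pos (by norm_num) h
    have e3 : 2 ^ Nat.clog 2 n = 2 ^ (Nat.clog 2 n).pred * 2 := by
      rw [← pow_succ]; congr 1; simp only [Nat.pred_eq_sub_one]; omega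
    omega
  · have : n = 1 := by omega
    subst this
    simp

/-- polynomial growth of the ranks -/
theorem poly_growthW (t : ℝ) (F : Finset AA) (ε : ℝ) (hε : 0 < ε) :
    ∃ K M : ℕ, ∀ n ≥ 1, ∃ r, HasCPA AA (orb (alW t) F n) ε r ∧ r ≤ K * n ^ M := by
  classical
  have h1 : ∀ a : AA, ∃ d : ℕ, ∃ b : AA, InS d (fun p x => ev p x b) ∧ ‖a - b‖ ≤ ε / 8 :=
    fun a => a.approx (by positivity)
  choose d b hb hab using h1
  have h2 : ∀ a : AA, ∃ q0, ∀ q ≥ q0, ∀ p x,
      ‖extq q (fun p x => ev p x a) p x - ev p x a‖ ≤ ε / 2 :=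
    fun a => extq_convA a (by positivity)
  choose q0 hq0 using h2
  have h3 : ∀ a : AA, ∃ e : ℕ, ∀ e' ≥ e, 4 * Real.pi * ‖a‖ * |t| * (2 ^ e')⁻¹ ≤ ε / 4 :=
    fun a => pow_two_inv_small (by positivity) _
  choose e he using h3
  set q := F.sup q0 with hq
  set E0 := max q (max (F.sup d) (F.sup e)) with hE0
  refine ⟨(q + 1) * (2 ^ q + 1) * ((2 ^ E0 * 2) ^ 2) ^ (2 ^ q), 2 * 2 ^ q, fun n hn => ?_⟩
  set E := E0 + Nat.clog 2 n with hE
  have hqE : q ≤ 2 * E := by
    have : q ≤ E0 := le_max_left _ _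
    omega
  refine ⟨_, ⟨GG q (2 * E), rfl, psiG _ _, phiG _ _ hqE, isCPC_psiG _ _,
    isCPC_phiG _ _ _, ?_⟩, ?_⟩
  · rintro _ ⟨j, hj, a, ha, rfl⟩
    have hd : d a ≤ E0 := (Finset.le_sup ha).trans ((le_max_left _ _).trans (le_max_right _ _))
    have he' : e a ≤ E0 := (Finset.le_sup ha).trans ((le_max_right _ _).trans (le_max_right _ _))
    rw [alW_iter]
    refine system_errorW _ _ hqE (j * t) a (b a) (by omega) (hb a) hε (hab a)
      (hq0 a q (Finset.le_sup ha)) ?_
    have e1 : (n : ℝ) ≤ 2 ^ Nat.clog 2 n := by exact_mod_cast Nat.le_pow_clog (by norm_num) n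
    have e2 : (j : ℝ) ≤ n := by exact_mod_cast hj.le
    have e3 : (j : ℝ) * (2 ^ Nat.clog 2 n)⁻¹ ≤ 1 := by
      rw [← div_eq_mul_inv, div_le_one (by positivity)]
      linarith
    rw [hE, pow_add, mul_inv, abs_mul, Nat.abs_cast]
    calc 4 * Real.pi * ‖a‖ * (j * |t|) * ((2 ^ E0)⁻¹ * (2 ^ Nat.clog 2 n)⁻¹)
        = 4 * Real.pi * ‖a‖ * |t| * (2 ^ E0)⁻¹ * (j * (2 ^ Nat.clog 2 n)⁻¹) := by ring
      _ ≤ 4 * Real.pi * ‖a‖ * |t| * (2 ^ E0)⁻¹ * 1 := by gcongr
      _ ≤ ε / 4 := by rw [mul_one]; exact he a _ he'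
  · refine (GG_rank _ _).trans ?_
    rw [mul_assoc ((q + 1) * (2 ^ q + 1)), pow_mul n 2, ← mul_pow]
    refine Nat.mul_le_mul_left _ (Nat.pow_le_pow_left ?_ _)
    rw [← mul_pow, mul_comm 2 E, pow_mul]
    refine Nat.pow_le_pow_left ?_ _
    rw [hE, pow_add, mul_assoc]
    exact Nat.mul_le_mul_left _ (pow_clog_le n hn)

theorem ht_nonneg' (β : AA →⋆ₙₐ[ℂ] AA) : 0 ≤ ht β := by
  have h : ((0 : ℝ) : EReal) ≤ entropy (HasCPA AA) β := by
    refine le_entropy _ _ {1} (1 / 2) (by norm_num) 0 fun N => ⟨N + 1, by omega, by omega, ?_⟩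
    rintro r ⟨F, hF, ψ, φ, hψ, hφ, h⟩
    have h1 := h 1 ⟨0, by omega, 1, Finset.mem_singleton_self _, rfl⟩
    have h0 : 0 < r := by
      by_contra hc
      have hr : F.rank = 0 := by omega
      rw [FDA.rank, Finset.sum_eq_zero_iff] at hr
      have h2 : ψ 1 = 0 := by
        funext i
        have h3 := hr i (Finset.mem_univ _)
        rw [Fintype.card_eq_zero_iff] at h3
        ext a
        exact h3.elim a
      rw [h2, map_zero, zero_sub, norm_neg, CStarRing.norm_one] at h1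
      norm_num at h1
    refine ⟨h0, ?_⟩
    rw [mul_zero]
    exact Real.log_natCast_nonneg r
  rwa [EReal.coe_zero] at h

theorem ht_alW (t : ℝ) : ht (alW t) = 0 :=
  le_antisymm (entropy_nonpos _ _ fun F ε hε => poly_growthW t F ε hε) (ht_nonneg' _)

end Pool.Agent.KS6_81.EC
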