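import Pool.Agent.KS6_81.EC.Low
import Pool.Agent.KS6_81.EC.Upp

/-! The coloured entropies are infinite. -/

set_option autoImplicit false
set_option linter.unusedVariables false

open scoped Matrix.Norms.L2Operator ENNReal Matrix

noncomputable section

namespace Pool.Agent.KS6_81.EC

theorem card_bits (L M : ℕ) (y y' : Fin (L * M) → Bool)
    (h : ∀ l < L, 12 * (Finset.univ.filter fun c : Fin M =>
      bitf y (l * M + (c : ℕ)) ≠ bitf y' (l * M + (c : ℕ))).card ≤ M) :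
    12 * (Finset.univ.filter fun u => y u ≠ y' u).card ≤ L * M := by
  have h1 : (Finset.univ.filter fun u => y u ≠ y' u).card
      = ∑ l ∈ Finset.range L, (Finset.univ.filter fun c : Fin M =>
        bitf y (l * M + (c : ℕ)) ≠ bitf y' (l * M + (c : ℕ))).card := by
    rw [Finset.card_filter]
    have h2 : ∀ u : Fin (L * M), (if y u ≠ y' u then 1 else 0)
        = (fun u : ℕ => if bitf y u ≠ bitf y' u then 1 else 0) (u : ℕ) := by
      intro u
      beta_reduce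
      rw [bitf_coe, bitf_coe]
    simp only [h2]
    rw [Fin.sum_univ_eq_sum_range (fun u : ℕ => if bitf y u ≠ bitf y' u then 1 else 0),
      sum_blocks]
    refine Finset.sum_congr rfl fun l _ => ?_
    rw [Finset.card_filter, ← Fin.sum_univ_eq_sum_range
      (fun c : ℕ => if bitf y (l * M + c) ≠ bitf y' (l * M + c) then 1 else 0)]
  rw [h1, Finset.mul_sum]
  calc ∑ l ∈ Finset.range L, 12 * (Finset.univ.filter fun c : Fin M =>
        bitf y (l * M + (c : ℕ)) ≠ bitf y' (l * M + (c : ℕ))).card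
      ≤ ∑ l ∈ Finset.range L, M := Finset.sum_le_sum fun l hl => h l (Finset.mem_range.1 hl)
    _ = L * M := by simp

/-- the rank of a system of one colour -/
theorem rank_boundW {D : FDA} (ψ : AA →ₗ[ℂ] D.alg) (φ : D.alg →ₗ[ℂ] AA) (hψ : IsCPC ψ)
    (hφ : IsCPC φ) (hoz : IsOrderZero φ) {t : ℝ} (ht : t ≠ 0) {m k n : ℕ} (hn : 0 < n)
    (htm : |t| ≤ 2 ^ m) (h2 : 2 * 2 ^ (m + k) ≤ n * |t|)
    (hv : ∀ l : Fin (4 ^ m), ∀ j < n,
      ‖φ (ψ (((alW t)^[j]) (vlA m l))) - ((alW t)^[j]) (vlA m l)‖ ≤ 1 / (2 * 10 ^ 6))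
    (hp : ‖φ (ψ pA) - pA‖ ≤ 1 / (2 * 10 ^ 6)) : 2 ^ (4 ^ m * 2 ^ k) ≤ D.rank ^ 2 := by
  have hpA : ‖pA‖ ≤ 1 := AA.norm_le zero_le_one fun p x => norm_pm_le p
  have hn' : (0 : ℝ) < n := by exact_mod_cast hn
  obtain ⟨e, lam, e1, e2, e3, e4, e5, e6, e7, e8⟩ := spec_all D (ψ pA) (by
    obtain ⟨N, hN⟩ := hψ.1 1 !![vA]
    refine ⟨N 0 0, ?_⟩
    have := congrFun (congrFun hN 0) 0
    simpa [Matrix.mul_apply, Matrix.conjTranspose_apply, vA_star_mul] using this)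
    ((hψ.2 _).trans hpA)
  have hδ : (0 : ℝ) < 1 / (2 * 10 ^ 6) / (4 * Real.pi * n) := by positivity
  choose X hX using fun y => exists_pt hn ht h2 y hδ
  have hCP : ∀ y, IsCP (evL (2 * (m + k)) (X y) ∘ₗ φ) := fun y =>
    (isCP_evL _ (X y)).comp hφ.1
  have hev : ∀ y (a : AA), ‖evL (2 * (m + k)) (X y) a‖ ≤ ‖a‖ := fun y a =>
    a.norm_ev _ (X y)
  have h1 : ∀ y, ‖(evL (2 * (m + k)) (X y) ∘ₗ φ) 1‖ ≤ 1 := fun y =>
    (hev y _).trans ((hφ.2 _).trans norm_one_le')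
  have hl : ∀ y, ∃ r, 1 - 3 * (1 / 10 ^ 6) ≤
      ((evL (2 * (m + k)) (X y) ∘ₗ φ) (e r) none none).re := by
    intro y
    have hN : ∀ r, ∃ N : Mt (2 * (m + k)),
        (evL (2 * (m + k)) (X y) ∘ₗ φ) (e r) = star N * N := by
      intro r
      obtain ⟨N, hN⟩ := hCP y 1 !![e r]
      refine ⟨N 0 0, ?_⟩
      have := congrFun (congrFun hN 0) 0
      simpa [Matrix.mul_apply, Matrix.conjTranspose_apply, e1, e2] using this
    choose N hN using hN
    refine label N (fun r => (evL (2 * (m + k)) (X y) ∘ₗ φ) (e r)) hN (fun l r hlr => ?_) ?_ lam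
      e6 e7 (by norm_num) (by norm_num) ?_
    · have h2 := hoz (e l) (e r) (by rw [e1, e2, e1, e2, e3 l r hlr])
      rw [e1, e2, e1, e2] at h2
      change ev _ (X y) (φ (e l)) * ev _ (X y) (φ (e r)) = 0
      rw [← map_mul, h2, map_zero]
    · rw [← map_sum, e4]
      exact h1 y
    · have h2 : ∑ r, (lam r : ℂ) • (evL (2 * (m + k)) (X y) ∘ₗ φ) (e r) - pm (2 * (m + k))
          = evL (2 * (m + k)) (X y) (φ (ψ pA) - pA) := by
        rw [map_sub, e5, map_sum, map_sum]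
        simp only [map_smul]
        rfl
      rw [h2]
      exact ((hev y _).trans hp).trans (by norm_num)
  choose lab hlab using hl
  have hcl : ∀ y (l : Fin (4 ^ m)) (j : Fin n),
      ‖(evL (2 * (m + k)) (X y) ∘ₗ φ) (ψ (((alW t)^[(j : ℕ)]) (vlA m l)))
        - vf m l (fun i : Fin (2 ^ (2 * (m + k))) => (kc n t m k y i : ℝ) / n) j‖ ≤ 1 / 10 ^ 6 := by
    intro y l j
    have a1 : ‖(evL (2 * (m + k)) (X y) ∘ₗ φ) (ψ (((alW t)^[(j : ℕ)]) (vlA m l)))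
        - vf m l (fun i => t * gf ((X y).c i)) j‖ ≤ 1 / (2 * 10 ^ 6) := by
      have h3 : (evL (2 * (m + k)) (X y) ∘ₗ φ) (ψ (((alW t)^[(j : ℕ)]) (vlA m l)))
          - vf m l (fun i => t * gf ((X y).c i)) j
          = evL (2 * (m + k)) (X y) (φ (ψ (((alW t)^[(j : ℕ)]) (vlA m l)))
            - ((alW t)^[(j : ℕ)]) (vlA m l)) := by
        rw [map_sub, evL_apply _ (X y) (((alW t)^[(j : ℕ)]) (vlA m l)), ev_alW_vlA]
        rfl
      rw [h3]
      exact (hev y _).trans (hv l j j.2)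
    have a2 := vf_dist l.2 (fun i => t * gf ((X y).c i))
      (fun i : Fin (2 ^ (2 * (m + k))) => (kc n t m k y i : ℝ) / n) j (hX y)
    have a3 : 4 * Real.pi * (j : ℕ) * (1 / (2 * 10 ^ 6) / (4 * Real.pi * n))
        ≤ 1 / (2 * 10 ^ 6) := by
      have hj : ((j : ℕ) : ℝ) ≤ n := by exact_mod_cast j.2.le
      calc 4 * Real.pi * (j : ℕ) * (1 / (2 * 10 ^ 6) / (4 * Real.pi * n))
          ≤ 4 * Real.pi * n * (1 / (2 * 10 ^ 6) / (4 * Real.pi * n)) := by gcongr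
        _ = 1 / (2 * 10 ^ 6) := by field_simp
    have a4 : (1 : ℝ) / 10 ^ 6 = 1 / (2 * 10 ^ 6) + 1 / (2 * 10 ^ 6) := by norm_num
    rw [a4]
    refine (norm_sub_le_norm_sub_add_norm_sub _ (vf m l (fun i => t * gf ((X y).c i)) j) _).trans ?_
    exact add_le_add a1 (a2.trans a3)
  have := labels (4 ^ m * 2 ^ k) lab fun y y' hyy => by
    have hy' := hlab y'
    rw [← hyy] at hy'
    refine card_bits _ _ y y' fun l hl => ?_
    exact sepG (sigm_inj hn htm h2 l) hn (by positivity) _ _ (normHat_vf hn t m k y hl)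
      (normHat_vf hn t m k y' hl) _ _ (hCP y) (hCP y') (h1 y) (h1 y')
      (fun j : Fin n => ψ (((alW t)^[(j : ℕ)]) (vlA m ⟨l, hl⟩)))
      (fun j => (hψ.2 _).trans (norm_alW_vlA t j m ⟨l, hl⟩))
      (hcl y ⟨l, hl⟩) (hcl y' ⟨l, hl⟩) (e (lab y)) (e1 _) (e2 _) (e8 _) (hlab y) hy'
  rwa [card_sigma_rank] at this

theorem log_boundW {r B : ℕ} (h : 2 ^ B ≤ r ^ 2) :
    0 < r ∧ (B : ℝ) * (Real.log 2 / 2) ≤ Real.log r := by
  have h0 : 0 < r := by
    rcases Nat.eq_zero_or_pos r with h0 | h0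
    · subst h0
      have : 0 < 2 ^ B := by positivity
      simp at h
    · exact h0
  refine ⟨h0, ?_⟩
  have h1 : ((2 : ℝ) ^ B) ≤ (r : ℝ) ^ 2 := by exact_mod_cast h
  have h2 := Real.log_le_log (by positivity) h1
  rw [Real.log_pow, Real.log_pow] at h2
  push_cast at h2 ⊢
  linarith

theorem entropyW_ge (R : Set AA → ℝ → ℕ → Prop) (hR : ∀ G ε r, R G ε r → HasDec AA 0 G ε r)
    {t : ℝ} (ht : t ≠ 0) {m : ℕ} (htm : |t| ≤ 2 ^ m) :
    ((2 ^ m * |t| * (Real.log 2 / 8) : ℝ) : EReal) ≤ entropy R (alW t) := by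
  classical
  have ht' : 0 < |t| := abs_pos.2 ht
  refine le_entropy _ _ (insert pA (Finset.univ.image (vlA m))) (1 / (2 * 10 ^ 6))
    (by norm_num) _ fun N => ?_
  set n := ⌈2 * 2 ^ (m + N) / |t|⌉₊ with hn
  have e0 : (0 : ℝ) < 2 * 2 ^ (m + N) / |t| := by positivity
  have e1 := Nat.le_ceil (2 * 2 ^ (m + N) / |t|)
  have e2 := Nat.ceil_lt_add_one e0.le
  have hn0 : 0 < n := Nat.ceil_pos.2 e0
  have h2 : 2 * 2 ^ (m + N) ≤ n * |t| := by
    rw [div_le_iff₀ ht'] at e1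
    exact e1
  have hNn : N ≤ n := by
    have e3 : (2 : ℝ) ^ N ≤ 2 * 2 ^ (m + N) / |t| := by
      rw [le_div_iff₀ ht', pow_add]
      have : (0 : ℝ) < 2 ^ N := by positivity
      nlinarith
    have e4 : (2 : ℝ) ^ N ≤ n := e3.trans e1
    have e5 : 2 ^ N ≤ n := by exact_mod_cast e4
    exact Nat.lt_two_pow_self.le.trans e5
  refine ⟨n, hNn, hn0, ?_⟩
  intro r hr
  obtain ⟨F, hF, ψ, φ, hψ, hφ, h⟩ := hR _ _ _ hr
  set ψ0 : AA →ₗ[ℂ] (F 0).alg := LinearMap.proj 0 ∘ₗ ψ with hψ0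
  have hψ0' : IsCPC ψ0 := by
    refine ⟨(isCP_hom ((Pi.evalStarAlgHom ℂ (fun j : Fin (0 + 1) => (F j).alg) 0)) _
      fun _ => rfl).comp hψ.1, fun a => ?_⟩
    exact (norm_le_pi_norm (ψ a) 0).trans (hψ.2 a)
  have h3 := rank_boundW ψ0 (φ 0) hψ0' (hφ 0).1 (hφ 0).2 ht (m := m) (k := N) (n := n) hn0 htm h2
    (fun l j hj => by
      have := h (((alW t)^[j]) (vlA m l)) ⟨j, hj, vlA m l, Finset.mem_insert_of_mem
        (Finset.mem_image_of_mem _ (Finset.mem_univ _)), rfl⟩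
      rwa [Fin.sum_univ_one] at this)
    (by
      have := h pA ⟨0, hn0, pA, Finset.mem_insert_self _ _, rfl⟩
      rwa [Fin.sum_univ_one] at this)
  have h4 : (F 0).rank = r := by rw [← hF, Fin.sum_univ_one]
  rw [h4] at h3
  obtain ⟨h5, h6⟩ := log_boundW h3
  refine ⟨h5, le_trans ?_ h6⟩
  push_cast
  have hl2 : 0 < Real.log 2 := Real.log_pos (by norm_num)
  have e6 : (n : ℝ) * |t| ≤ 2 * 2 ^ (m + N) + |t| := by
    have e7 : (n : ℝ) * |t| ≤ (2 * 2 ^ (m + N) / |t| + 1) * |t| := by gcongr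
    have e8 : (2 * 2 ^ (m + N) / |t| + 1) * |t| = 2 * 2 ^ (m + N) + |t| := by field_simp
    linarith
  have e9 : |t| ≤ 2 ^ m * 2 ^ N := by
    have : (1 : ℝ) ≤ 2 ^ N := one_le_pow₀ (by norm_num)
    have : (0 : ℝ) < 2 ^ m := by positivity
    nlinarith
  have e10 : (4 : ℝ) ^ m = 2 ^ m * 2 ^ m := by rw [← mul_pow]; norm_num
  have e11 : (n : ℝ) * |t| ≤ 3 * (2 ^ m * 2 ^ N) := by
    rw [pow_add] at e6
    linarith
  calc (n : ℝ) * (2 ^ m * |t| * (Real.log 2 / 8))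
      = (n * |t|) * (2 ^ m * (Real.log 2 / 8)) := by ring
    _ ≤ (3 * (2 ^ m * 2 ^ N)) * (2 ^ m * (Real.log 2 / 8)) := by gcongr
    _ = 4 ^ m * 2 ^ N * (3 * Real.log 2 / 8) := by rw [e10]; ring
    _ ≤ 4 ^ m * 2 ^ N * (Real.log 2 / 2) :=
        mul_le_mul_of_nonneg_left (by linarith) (by positivity)

theorem entropyW (R : Set AA → ℝ → ℕ → Prop) (hR : ∀ G ε r, R G ε r → HasDec AA 0 G ε r)
    {t : ℝ} (ht : t ≠ 0) : entropy R (alW t) = ⊤ := by
  have ht' : 0 < |t| := abs_pos.2 ht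
  have hl2 : 0 < Real.log 2 := Real.log_pos (by norm_num)
  rw [EReal.eq_top_iff_forall_lt]
  intro c
  obtain ⟨m1, hm1⟩ := pow_unbounded_of_one_lt |t| (one_lt_two)
  obtain ⟨m2, hm2⟩ := pow_unbounded_of_one_lt (c / (|t| * (Real.log 2 / 8))) (one_lt_two (α := ℝ))
  have hm : |t| ≤ 2 ^ (max m1 m2) :=
    hm1.le.trans (pow_le_pow_right₀ (by norm_num) (le_max_left _ _))
  refine lt_of_lt_of_le ?_ (entropyW_ge R hR ht hm)
  rw [EReal.coe_lt_coe_iff]
  rw [div_lt_iff₀ (by positivity)] at hm2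
  have h3 : (2 : ℝ) ^ m2 ≤ 2 ^ (max m1 m2) := pow_le_pow_right₀ (by norm_num) (le_max_right _ _)
  calc c < 2 ^ m2 * (|t| * (Real.log 2 / 8)) := hm2
    _ ≤ 2 ^ (max m1 m2) * (|t| * (Real.log 2 / 8)) := by gcongr
    _ = _ := by ring

theorem htNuc_alW {t : ℝ} (ht : t ≠ 0) : htNuc (alW t) = ⊤ := by
  refine top_unique (le_iInf₂ fun d hd => ?_)
  rw [nucDim_AA] at hd
  have hd0 : d = 0 := by exact_mod_cast hd.symm
  subst hd0
  exact (entropyW _ (fun G ε r h => h) ht).ge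

theorem htDr_alW {t : ℝ} (ht : t ≠ 0) : htDr (alW t) = ⊤ := by
  refine top_unique (le_iInf₂ fun d hd => ?_)
  rw [decRank_AA] at hd
  have hd0 : d = 0 := by exact_mod_cast hd.symm
  subst hd0
  exact (entropyW _ (fun G ε r h => h.hasDec) ht).ge

end Pool.Agent.KS6_81.EC
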