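import Pool.Agent.KS6_81.EC.El
import Pool.Agent.KS6_81.EC.Dig

/-! The one-parameter group of unitaries whose frequencies forget every second digit. -/

set_option autoImplicit false
set_option linter.unusedVariables false

open scoped Matrix.Norms.L2Operator ENNReal Matrix

noncomputable section

namespace Pool.Agent.KS6_81.EC

/-- functions of the truncated coordinates are sections of finite depth -/
theorem dgF_InS (d : ℕ) (F : ℕ → ℂ) :
    InS d (fun p (x : Pt p) => (dg fun i => F ⌊2 ^ d * x.c i⌋₊ : Mt p)) := by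
  refine ⟨fun p hp x x' hx => ?_, fun p => (dg fun i => F ((i : ℕ) / 2 ^ (p - d) : ℕ),
    fun i => F ((i : ℕ) / 2 ^ (p - d) : ℕ)), fun p hp => ?_, fun p hp x => ?_⟩
  · rw [tr_eq_iff] at hx
    beta_reduce
    congr 1
    funext i
    rw [hx i]
  · have h1 : (fun i : Fin (2 ^ (p + 1)) => F (((i : ℕ) / 2 ^ (p + 1 - d) : ℕ)))
        = fun s => (fun i : Fin (2 ^ p) => F (((i : ℕ) / 2 ^ (p - d) : ℕ))) (par s) := by
      funext s
      change _ = F (((s / 2 : ℕ) / 2 ^ (p - d) : ℕ))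
      rw [Nat.div_div_eq_div_mul, ← pow_succ', show p - d + 1 = p + 1 - d by omega]
    beta_reduce
    rw [jk, jm_dg, h1]
  · beta_reduce
    change _ = dg _
    congr 1
    funext i
    rw [floor_half hp, floor_self]

/-- regular functions of the coordinates -/
def RegF (φ : ℝ → ℂ) : Prop :=
  (∀ x, ‖φ x‖ ≤ 1) ∧ ∀ ε > 0, ∃ D : ℕ, ∀ x x' : ℝ, 0 ≤ x → x < 1 → 0 ≤ x' → x' < 1 →
    ⌊4 ^ D * x⌋₊ = ⌊4 ^ D * x'⌋₊ → ‖φ x - φ x'‖ ≤ ε

theorem four_pow (D : ℕ) : (2 : ℝ) ^ (2 * D) = 4 ^ D := by rw [pow_mul]; norm_num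

/-- the section of a regular function -/
def secA (φ : ℝ → ℂ) (h : RegF φ) : AA :=
  ⟨mkA (fun p x => dg fun i => φ (x.c i)) 1 fun p x => norm_dg_le _ fun i => h.1 _, by
    rw [mem_AAs]
    intro ε hε
    obtain ⟨D, hD⟩ := h.2 ε hε
    refine ⟨mkA (fun p x => dg fun i => φ (((⌊2 ^ (2 * D) * x.c i⌋₊ : ℕ) : ℝ) / 4 ^ D)) 1
      fun p x => norm_dg_le _ fun i => h.1 _, ⟨2 * D, dgF_InS (2 * D) fun n => φ ((n : ℝ) / 4 ^ D)⟩,
      Am.norm_le hε.le fun p x => ?_⟩
    change ‖dg (fun i => φ (x.c i))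
      - dg (fun i => φ (((⌊2 ^ (2 * D) * x.c i⌋₊ : ℕ) : ℝ) / 4 ^ D))‖ ≤ ε
    refine norm_dg_sub_le _ _ hε.le fun i => ?_
    have h0 : (0 : ℝ) < 4 ^ D := by positivity
    rw [four_pow]
    refine hD _ _ (x.nonneg i) (x.lt_one i) (by positivity) ?_ ?_
    · rw [div_lt_one h0]
      have h1 := Nat.floor_le (show 0 ≤ 4 ^ D * x.c i by have := x.nonneg i; positivity)
      have h2 := x.lt_one i
      nlinarith
    · have e1 : (4 : ℝ) ^ D * (((⌊4 ^ D * x.c i⌋₊ : ℕ) : ℝ) / 4 ^ D)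
          = ((⌊4 ^ D * x.c i⌋₊ : ℕ) : ℝ) := by field_simp
      rw [e1, Nat.floor_natCast]⟩

theorem ev_secA (φ : ℝ → ℂ) (h : RegF φ) (p : ℕ) (x : Pt p) :
    ev p x (secA φ h) = dg fun i => φ (x.c i) := rfl

theorem regF_ex (t : ℝ) : RegF fun x => ex (t * gf x) := by
  refine ⟨fun x => (norm_ex _).le, fun ε hε => ?_⟩
  obtain ⟨D, hD⟩ := pow_two_inv_small hε (2 * Real.pi * |t|)
  refine ⟨D, fun x x' hx hx1 hx' hx1' h => ?_⟩
  refine (ex_sub_le _ _).trans ((le_trans ?_) (hD D le_rfl))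
  rw [← mul_sub, abs_mul, mul_assoc (2 * Real.pi)]
  have := gf_dist hx hx1 hx' hx1' D h
  gcongr

theorem regF_gf : RegF fun x => ((gf x : ℝ) : ℂ) := by
  refine ⟨fun x => ?_, fun ε hε => ?_⟩
  · rw [Complex.norm_real, Real.norm_eq_abs, abs_of_nonneg (gf_nonneg x)]
    exact gf_le_one x
  · obtain ⟨D, hD⟩ := pow_two_inv_small hε 1
    refine ⟨D, fun x x' hx hx1 hx' hx1' h => ?_⟩
    rw [← Complex.ofReal_sub, Complex.norm_real, Real.norm_eq_abs]
    refine (gf_dist hx hx1 hx' hx1' D h).trans ?_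
    have := hD D le_rfl
    rwa [one_mul] at this

/-- the unitary section -/
def wg (t : ℝ) (p : ℕ) (x : Pt p) : Mt p := dg fun i => ex (t * gf (x.c i))

theorem wg_mul (s t : ℝ) (p : ℕ) (x : Pt p) : wg s p x * wg t p x = wg (s + t) p x := by
  rw [wg, wg, wg, dg_mul]
  congr 1
  funext i
  change ex _ * ex _ = _
  rw [← ex_add, add_mul]

theorem wg_zero (p : ℕ) (x : Pt p) : wg 0 p x = 1 := by
  rw [wg, ← dg_one]
  congr 1
  funext i
  rw [zero_mul, ex_zero]
  rfl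

theorem wg_star (t : ℝ) (p : ℕ) (x : Pt p) : star (wg t p x) = wg (-t) p x := by
  rw [wg, wg, dg_star]
  congr 1
  funext i
  change star (ex _) = _
  rw [ex_neg, neg_mul]

theorem norm_wg_le (t : ℝ) (p : ℕ) (x : Pt p) : ‖wg t p x‖ ≤ 1 :=
  norm_dg_le _ fun i => (norm_ex _).le

theorem wg_dist {D p : ℕ} {x x' : Pt p} (h : tr (2 * D) x = tr (2 * D) x') (t : ℝ) :
    ‖wg t p x - wg t p x'‖ ≤ 2 * Real.pi * |t| * (2 ^ D)⁻¹ := by
  rw [tr_eq_iff] at h
  rw [wg, wg]
  refine norm_dg_sub_le _ _ (by positivity) fun i => ?_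
  refine (ex_sub_le _ _).trans ?_
  have h1 := h i
  rw [four_pow] at h1
  have h2 := gf_dist (x.nonneg i) (x.lt_one i) (x'.nonneg i) (x'.lt_one i) D h1
  rw [← mul_sub, abs_mul, mul_assoc (2 * Real.pi)]
  gcongr

theorem wg_Va (t : ℝ) (p : ℕ) (x : Pt (p + 1)) (a : Fin (2 ^ p) → Bool) :
    wg t (p + 1) x * Va p a = Va p a * wg t p (smp x a) := by
  ext s i
  rw [wg, wg, dg, dg, Matrix.diagonal_mul, Matrix.mul_diagonal]
  rcases s with _ | s <;> rcases i with _ | i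
  · simp
  · simp [Va_ns]
  · simp [Va_sn]
  · rw [Va_ss]
    by_cases h : s = ch i (a i)
    · subst h
      simp [smp]
      ring
    · simp [h]

/-- the unitary -/
def WA (t : ℝ) : AA := secA _ (regF_ex t)

@[simp] theorem ev_WA (t : ℝ) (p : ℕ) (x : Pt p) : ev p x (WA t) = wg t p x := rfl

theorem WA_mul (s t : ℝ) : WA s * WA t = WA (s + t) := AA.ext fun p x => by
  rw [map_mul, ev_WA, ev_WA, ev_WA, wg_mul]

theorem WA_zero : WA 0 = 1 := AA.ext fun p x => by
  rw [map_one, ev_WA, wg_zero]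

theorem WA_star (t : ℝ) : star (WA t) = WA (-t) := AA.ext fun p x => by
  rw [map_star, ev_WA, ev_WA, wg_star]

theorem WA_star_mul (t : ℝ) : star (WA t) * WA t = 1 := by
  rw [WA_star, WA_mul, neg_add_cancel, WA_zero]

theorem WA_mul_star (t : ℝ) : WA t * star (WA t) = 1 := by
  rw [WA_star, WA_mul, add_neg_cancel, WA_zero]

/-- the inner automorphisms -/
def alW (t : ℝ) : AA →⋆ₙₐ[ℂ] AA where
  toFun a := WA t * a * star (WA t)
  map_smul' c a := by simp
  map_zero' := by simp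
  map_add' a b := by rw [mul_add, add_mul]
  map_mul' a b := by
    rw [show WA t * a * star (WA t) * (WA t * b * star (WA t))
      = WA t * a * (star (WA t) * WA t) * b * star (WA t) by
      simp only [mul_assoc], WA_star_mul, mul_one, mul_assoc, mul_assoc, mul_assoc, mul_assoc]
  map_star' a := by simp [mul_assoc]

theorem alW_apply (t : ℝ) (a : AA) : alW t a = WA t * a * star (WA t) := rfl

theorem alW_iter (t : ℝ) (j : ℕ) (a : AA) :
    ((alW t)^[j]) a = WA (j * t) * a * star (WA (j * t)) := by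
  induction j with
  | zero => simp [WA_zero]
  | succ j ih =>
    rw [Function.iterate_succ_apply', ih, alW_apply]
    have h1 : WA (((j + 1 : ℕ) : ℝ) * t) = WA t * WA (j * t) := by
      rw [WA_mul]
      congr 1
      push_cast
      ring
    rw [h1, star_mul]
    simp only [mul_assoc]

theorem ev_alW_iter (t : ℝ) (j : ℕ) (a : AA) (p : ℕ) (x : Pt p) :
    ev p x (((alW t)^[j]) a) = wg (j * t) p x * ev p x a * star (wg (j * t) p x) := by
  rw [alW_iter, map_mul, map_mul, map_star, ev_WA]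

end Pool.Agent.KS6_81.EC
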