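import Pool.Agent.KS6_81.EC.Lb5

/-! Labels separate points: the general form. -/

set_option autoImplicit false
set_option linter.unusedVariables false

open scoped Matrix.Norms.L2Operator ENNReal Matrix

noncomputable section

namespace Pool.Agent.KS6_81.EC

variable {D : Type} [CStarAlgebra D] {n K P : ℕ}

/-- the frequencies of the point `y` -/
def Tof (σ : Fin K → Bool → Fin n) (y : Fin K → Bool) : Finset (Fin n) :=
  Finset.univ.filter fun s => ∃ c, s = σ c (y c)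

/-- the squares of the Fourier coefficients of the ideal vectors -/
def NormHat (σ : Fin K → Bool → Fin n) (y : Fin K → Bool) (V : Fin n → Mt P) : Prop :=
  ∀ s, ‖cO (hat V s)‖ ^ 2 = (n : ℝ) ^ 2 / K * ∑ c, if s = σ c (y c) then (1 : ℝ) else 0

theorem sum_inG {σ : Fin K → Bool → Fin n} (y : Fin K → Bool) (hK : 0 < K) {V : Fin n → Mt P}
    (hV : NormHat σ y V) : ∑ s ∈ Tof σ y, ‖cO (hat V s)‖ ^ 2 = (n : ℝ) ^ 2 := by
  have hK' : (0 : ℝ) < K := by exact_mod_cast hK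
  have h1 : ∀ s, ‖cO (hat V s)‖ ^ 2
    = (n : ℝ) ^ 2 / K * ∑ c, if s = σ c (y c) then (1 : ℝ) else 0 := hV
  simp only [h1]
  rw [← Finset.mul_sum, Finset.sum_comm]
  have h2 : ∀ c, ∑ s ∈ Tof σ y, (if s = σ c (y c) then (1 : ℝ) else 0) = 1 := by
    intro c
    rw [Finset.sum_eq_single (σ c (y c))]
    · simp
    · intro b _ hb
      rw [if_neg hb]
    · intro h
      exact absurd (Finset.mem_filter.2 ⟨Finset.mem_univ _, c, rfl⟩) h
  simp only [h2]
  rw [Finset.sum_const, Finset.card_univ, Fintype.card_fin, nsmul_eq_mul, mul_one]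
  field_simp

theorem sum_outG {σ : Fin K → Bool → Fin n}
    (hσ : ∀ c b c' b', σ c b = σ c' b' → c = c' ∧ b = b') (y y' : Fin K → Bool)
    {V : Fin n → Mt P} (hV : NormHat σ y' V) :
    ∑ s ∈ Finset.univ \ Tof σ y, ‖cO (hat V s)‖ ^ 2
      = (n : ℝ) ^ 2 / K * (Finset.univ.filter fun c => y c ≠ y' c).card := by
  have h1 : ∀ s, ‖cO (hat V s)‖ ^ 2
    = (n : ℝ) ^ 2 / K * ∑ c, if s = σ c (y' c) then (1 : ℝ) else 0 := hV
  simp only [h1]
  rw [← Finset.mul_sum, Finset.sum_comm, Finset.card_filter]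
  push_cast
  congr 1
  refine Finset.sum_congr rfl fun c _ => ?_
  by_cases h : y c = y' c
  · rw [if_neg (by simpa using h)]
    refine Finset.sum_eq_zero fun s hs => ?_
    rw [if_neg]
    rintro rfl
    refine (Finset.mem_sdiff.1 hs).2 (Finset.mem_filter.2 ⟨Finset.mem_univ _, c, ?_⟩)
    rw [h]
  · rw [if_pos h, Finset.sum_eq_single (σ c (y' c))]
    · simp
    · intro b _ hb
      rw [if_neg hb]
    · intro hc
      refine absurd (Finset.mem_sdiff.2 ⟨Finset.mem_univ _, fun hm => ?_⟩) hc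
      obtain ⟨c', hc'⟩ := (Finset.mem_filter.1 hm).2
      obtain ⟨e1, e2⟩ := hσ _ _ _ _ hc'
      subst e1
      exact h e2.symm

/-- lower bound at the point itself -/
theorem sepAG {σ : Fin K → Bool → Fin n} (hn : 0 < n) (hK : 0 < K) (y : Fin K → Bool)
    {V : Fin n → Mt P} (hV : NormHat σ y V) (Φ : D →ₗ[ℂ] Mt P) (h : IsCP Φ)
    (h1 : ‖Φ 1‖ ≤ 1) (F : Fin n → D) (hΦ : ∀ j, ‖Φ (F j) - V j‖ ≤ 1 / 10 ^ 6) :
    ((n : ℝ) * (1 - 1 / 10 ^ 6)) ^ 2 ≤ (Φ (QT F (Tof σ y)) none none).re := by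
  have l1 : Real.sqrt (∑ s ∈ Tof σ y, ‖cO (hat V s)‖ ^ 2) = n := by
    rw [sum_inG y hK hV, Real.sqrt_sq (by positivity)]
  have l2 := minkowski (Tof σ y) (fun s => cO (hat V s))
    (fun s => cO (hat (fun j => Φ (F j)) s))
  have l3 := hat_close hn (ε := 1 / 10 ^ 6) (by norm_num) (fun j => Φ (F j)) V hΦ (Tof σ y)
  have l4 := QT_low h h1 F (Tof σ y)
  simp only [hat_map Φ F] at l4
  beta_reduce at l2 l3
  rw [l1] at l2
  refine le_trans ?_ l4
  have hN : (0 : ℝ) < (n : ℝ) := by exact_mod_cast hn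
  generalize (n : ℝ) = N at *
  rw [← Real.le_sqrt' (by nlinarith)]
  linarith

/-- upper bound at the other point -/
theorem sepBG {σ : Fin K → Bool → Fin n}
    (hσ : ∀ c b c' b', σ c b = σ c' b' → c = c' ∧ b = b') (hn : 0 < n) (y y' : Fin K → Bool)
    {V : Fin n → Mt P} (hV : NormHat σ y' V) (Φ' : D →ₗ[ℂ] Mt P) (h' : IsCP Φ')
    (h1' : ‖Φ' 1‖ ≤ 1) (F : Fin n → D) (hF : ∀ j, ‖F j‖ ≤ 1)
    (hΦ' : ∀ j, ‖Φ' (F j) - V j‖ ≤ 1 / 10 ^ 6) :
    Real.sqrt ((n : ℝ) ^ 2 / K * (Finset.univ.filter fun c => y c ≠ y' c).card) ≤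
      Real.sqrt ((n : ℝ) ^ 2 - (Φ' (QT F (Tof σ y)) none none).re) + (n : ℝ) * (1 / 10 ^ 6) := by
  have u1 := QT_up hn h' h1' F hF
  rw [← QT_add F (Tof σ y)] at u1
  have u2 := QT_low h' h1' F (Finset.univ \ Tof σ y)
  simp only [hat_map Φ' F] at u2
  have u3 := minkowski (Finset.univ \ Tof σ y) (fun s => cO (hat V s))
    (fun s => cO (hat (fun j => Φ' (F j)) s))
  have u4 := hat_close hn (ε := 1 / 10 ^ 6) (by norm_num) (fun j => Φ' (F j)) V hΦ'
    (Finset.univ \ Tof σ y)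
  beta_reduce at u3 u4
  rw [sum_outG hσ y y' hV] at u3
  refine u3.trans (add_le_add (Real.sqrt_le_sqrt ?_) u4)
  linarith

/-- points with the same label are close in the Hamming distance -/
theorem sepG {σ : Fin K → Bool → Fin n}
    (hσ : ∀ c b c' b', σ c b = σ c' b' → c = c' ∧ b = b') (hn : 0 < n) (hK : 0 < K)
    (y y' : Fin K → Bool) {V V' : Fin n → Mt P} (hV : NormHat σ y V) (hV' : NormHat σ y' V')
    (Φ Φ' : D →ₗ[ℂ] Mt P) (h : IsCP Φ)
    (h' : IsCP Φ') (h1 : ‖Φ 1‖ ≤ 1) (h1' : ‖Φ' 1‖ ≤ 1) (F : Fin n → D)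
    (hF : ∀ j, ‖F j‖ ≤ 1) (hΦ : ∀ j, ‖Φ (F j) - V j‖ ≤ 1 / 10 ^ 6)
    (hΦ' : ∀ j, ‖Φ' (F j) - V' j‖ ≤ 1 / 10 ^ 6) (e : D) (he : star e = e)
    (he2 : e * e = e) (hc : ∀ a, ∃ c : ℂ, e * a * e = c • e)
    (hω : 1 - 3 * (1 / 10 ^ 6) ≤ (Φ e none none).re)
    (hω' : 1 - 3 * (1 / 10 ^ 6) ≤ (Φ' e none none).re) :
    12 * (Finset.univ.filter fun c => y c ≠ y' c).card ≤ K := by
  obtain ⟨c, hc⟩ := hc (QT F (Tof σ y))
  have hQ := QT_norm hn F hF (Tof σ y)
  have hs : Real.sqrt (3 * (1 / 10 ^ 6)) ≤ 2 / 10 ^ 3 := by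
    rw [Real.sqrt_le_left (by norm_num)]
    norm_num
  have c1 := om_close h h1 e he he2 (η := 3 * (1 / 10 ^ 6)) (by norm_num) (by norm_num) hω _ c hc hQ
  have c2 := om_close h' h1' e he he2 (η := 3 * (1 / 10 ^ 6)) (by norm_num) (by norm_num) hω' _ c
    hc hQ
  have l6 := sepAG hn hK y hV Φ h h1 F hΦ
  have u3 := sepBG hσ hn y y' hV' Φ' h' h1' F hF hΦ'
  have hN : (0 : ℝ) < (n : ℝ) := by exact_mod_cast hn
  have hK' : (0 : ℝ) < (K : ℝ) := by exact_mod_cast hK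
  have d1 := (Complex.abs_re_le_norm _).trans c1
  have d2 := (Complex.abs_re_le_norm _).trans c2
  rw [Complex.sub_re, abs_le] at d1 d2
  generalize (Φ (QT F (Tof σ y)) none none).re = A at *
  generalize (Φ' (QT F (Tof σ y)) none none).re = A' at *
  have goal : (12 * ((Finset.univ.filter fun c => y c ≠ y' c).card : ℝ)) ≤ K := by
    generalize ((Finset.univ.filter fun c => y c ≠ y' c).card : ℝ) = h0 at *
    generalize (n : ℝ) = N at *
    generalize (K : ℝ) = k at *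
    have c3 : A ≤ A' + 2 / 100 * N ^ 2 := by
      have e1 : (2 * Real.sqrt (3 * (1 / 10 ^ 6)) + 3 * (1 / 10 ^ 6)) * N ^ 2
          ≤ (5 / 1000) * N ^ 2 := by
        gcongr
        linarith
      linarith [d1.2, d2.1]
    have u6 : Real.sqrt (N ^ 2 - A') ≤ N * (15 / 100) := by
      rw [Real.sqrt_le_left (by positivity)]
      nlinarith
    have u7 : Real.sqrt (N ^ 2 / k * h0) ≤ N * (16 / 100) := by linarith
    rw [Real.sqrt_le_left (by positivity)] at u7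
    have u8 : N ^ 2 * h0 ≤ N ^ 2 * ((16 / 100) ^ 2 * k) := by
      have e1 : N ^ 2 / k * h0 = N ^ 2 * h0 / k := by ring
      rw [e1, div_le_iff₀ hK'] at u7
      calc N ^ 2 * h0 ≤ (N * (16 / 100)) ^ 2 * k := u7
        _ = _ := by ring
    have u9 : h0 ≤ (16 / 100) ^ 2 * k := le_of_mul_le_mul_left u8 (by positivity)
    linarith
  exact_mod_cast goal

end Pool.Agent.KS6_81.EC
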