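import Pool.Agent.KS6_81.EC.Ext

/-! The Brown–Voiculescu entropy of the automorphism is zero. -/

set_option autoImplicit false
set_option linter.unusedVariables false

open scoped Matrix.Norms.L2Operator ENNReal Matrix

noncomputable section

namespace Pool.Agent.KS6_81.EC

/-- the finite-dimensional algebra -/
def GG (q D : ℕ) : FDA where
  ι := Σ p : Fin (q + 1), (Fin (2 ^ (p : ℕ)) → Fin (2 ^ D))
  n := fun x => Ix x.1

/-- the components -/
def coH (q D : ℕ) (p : ℕ) (h : p ≤ q) (t : Fin (2 ^ p) → Fin (2 ^ D)) :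
    (GG q D).alg →⋆ₐ[ℂ] Mt p where
  toFun f := f ⟨⟨p, Nat.lt_succ_of_le h⟩, t⟩
  map_one' := rfl
  map_mul' _ _ := rfl
  map_zero' := rfl
  map_add' _ _ := rfl
  commutes' _ := rfl
  map_star' _ := rfl

/-- evaluation at the representatives -/
def psiG (q D : ℕ) : AA →ₗ[ℂ] (GG q D).alg :=
  LinearMap.pi fun x : (Σ p : Fin (q + 1), (Fin (2 ^ (p : ℕ)) → Fin (2 ^ D))) =>
    (evL x.1 (rep x.2) : AA →ₗ[ℂ] Mt x.1)

theorem coH_psiG (q D : ℕ) (p : ℕ) (h : p ≤ q) (t : Fin (2 ^ p) → Fin (2 ^ D)) (a : AA) :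
    coH q D p h t (psiG q D a) = ev p (rep t) a := rfl

theorem isCPC_psiG (q D : ℕ) : IsCPC (psiG q D) := by
  refine IsCP.isCPC (isCP_pi _ _ fun x => ?_) ?_
  · exact isCP_evL x.1 (rep x.2)
  · have : psiG q D 1 = 1 := funext fun x => map_one (ev x.1 (rep x.2))
    rw [this]
    exact norm_one_le'

/-- the section on the levels `≤ q` -/
def secG (q D : ℕ) (f : (GG q D).alg) (p : ℕ) (x : Pt p) : Mt p :=
  if h : p ≤ q then coH q D p h (tr D x) f else 0

theorem secG_add (q D : ℕ) (f g : (GG q D).alg) :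
    secG q D (f + g) = fun p x => secG q D f p x + secG q D g p x := by
  funext p x
  by_cases h : p ≤ q
  · rw [secG, dif_pos h, secG, dif_pos h, secG, dif_pos h, map_add]
  · rw [secG, dif_neg h, secG, dif_neg h, secG, dif_neg h, add_zero]

theorem secG_smul (q D : ℕ) (c : ℂ) (f : (GG q D).alg) :
    secG q D (c • f) = fun p x => c • secG q D f p x := by
  funext p x
  by_cases h : p ≤ q
  · rw [secG, dif_pos h, secG, dif_pos h, map_smul]
  · rw [secG, dif_neg h, secG, dif_neg h, smul_zero]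

theorem secG_norm (q D : ℕ) (f : (GG q D).alg) (p : ℕ) (x : Pt p) : ‖secG q D f p x‖ ≤ ‖f‖ := by
  by_cases h : p ≤ q
  · rw [secG, dif_pos h]; exact NonUnitalStarAlgHom.norm_apply_le (coH q D p h (tr D x)) f
  · rw [secG, dif_neg h, norm_zero]; exact norm_nonneg _

/-- extension as a linear map -/
def exL (q D p : ℕ) (x : Pt p) : (GG q D).alg →ₗ[ℂ] Mt p where
  toFun f := extq q (secG q D f) p x
  map_add' f g := by rw [secG_add, extq_add]
  map_smul' c f := by rw [secG_smul, extq_smul]; rfl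

theorem isCP_piL {A : Type} [NonUnitalCStarAlgebra A] {J : Type} [Fintype J] {B : J → Type}
    [∀ j, CStarAlgebra (B j)] (φ : ∀ j, A →ₗ[ℂ] B j) (h : ∀ j, IsCP (φ j)) :
    IsCP (LinearMap.pi φ) :=
  isCP_of_family (fun j => ((Pi.evalStarAlgHom ℂ B j : (∀ j, B j) →⋆ₐ[ℂ] B j) :
    (∀ j, B j) →⋆ₙₐ[ℂ] B j)) (fun b hb => funext fun i => hb i) _ fun i => h i

theorem isCP_exL (q D p : ℕ) (x : Pt p) : IsCP (exL q D p x) := by
  refine extq_ind (q := q) (P := fun p x => IsCP (exL q D p x)) (fun p hp x => ?_)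
    (fun p hp ih x => ?_) p x
  · refine isCP_hom (coH q D p hp (tr D x)) _ fun f => ?_
    change extq q (secG q D f) p x = _
    rw [extq_le hp, secG, dif_pos hp]
  · have h1 : exL q D (p + 1) x = avL p ∘ₗ LinearMap.pi fun a => exL q D p (smp x a) := by
      refine LinearMap.ext fun f => ?_
      change extq q (secG q D f) (p + 1) x = _
      rw [extq_succ hp]
      rfl
    rw [h1]
    exact (isCP_avL p).comp (isCP_piL _ fun a => ih _)

/-- the map back to the algebra -/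
def phiG (q D : ℕ) (hqD : q ≤ D) : (GG q D).alg →ₗ[ℂ] AA where
  toFun f := ⟨mkA (extq q (secG q D f)) ‖f‖ (norm_extq_le _ (norm_nonneg _) fun p _ x =>
    secG_norm q D f p x), Sinf_le ⟨D, extq_InS hqD _ fun p hp x x' hx => by
      rw [secG, dif_pos hp, secG, dif_pos hp, hx]⟩⟩
  map_add' f g := AA.ext fun p x => (exL q D p x).map_add f g
  map_smul' c f := AA.ext fun p x => (exL q D p x).map_smul c f

theorem ev_phiG (q D : ℕ) (hqD : q ≤ D) (f : (GG q D).alg) (p : ℕ) (x : Pt p) :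
    ev p x (phiG q D hqD f) = extq q (secG q D f) p x := rfl

theorem isCPC_phiG (q D : ℕ) (hqD : q ≤ D) : IsCPC (phiG q D hqD) := by
  refine IsCP.isCPC ?_ ?_
  · refine isCP_of_family (fun x : (Σ p, Pt p) => ((ev x.1 x.2 : AA →⋆ₐ[ℂ] Mt x.1) :
      AA →⋆ₙₐ[ℂ] Mt x.1)) (fun b hb => AA.ext fun p x => ?_) _ fun x => isCP_exL q D x.1 x.2
    rw [map_zero]
    exact hb ⟨p, x⟩
  · have : phiG q D hqD 1 = 1 := AA.ext fun p x => by
      rw [ev_phiG, map_one]
      refine extq_one _ (fun p hp x => ?_) p x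
      rw [secG, dif_pos hp, map_one]
    rw [this]
    exact norm_one_le'

theorem conj_dist {E : Type} [CStarAlgebra E] (W W' B B' : E) {m δ η : ℝ} (hW : ‖W‖ ≤ 1)
    (hW' : ‖W'‖ ≤ 1) (hB : ‖B‖ ≤ m) (hB' : ‖B'‖ ≤ m) (hWW : ‖W' - W‖ ≤ δ) (hBB : ‖B' - B‖ ≤ η) :
    ‖W' * B' * star W' - W * B * star W‖ ≤ 2 * m * δ + η := by
  have hm : 0 ≤ m := (norm_nonneg _).trans hB
  have hδ : 0 ≤ δ := (norm_nonneg _).trans hWW
  have hη : 0 ≤ η := (norm_nonneg _).trans hBB
  have h1 : W' * B' * star W' - W * B * star W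
      = W' * B' * star (W' - W) + W' * (B' - B) * star W + (W' - W) * B * star W := by
    rw [star_sub]; noncomm_ring
  rw [h1]
  refine norm_add₃_le.trans ?_
  have e1 : ‖W' * B' * star (W' - W)‖ ≤ 1 * m * δ := by
    refine (norm_mul_le _ _).trans ?_
    rw [norm_star]
    gcongr
    exact (norm_mul_le _ _).trans (by gcongr)
  have e2 : ‖W' * (B' - B) * star W‖ ≤ 1 * η * 1 := by
    refine (norm_mul_le _ _).trans ?_
    rw [norm_star]
    gcongr
    exact (norm_mul_le _ _).trans (by gcongr)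
  have e3 : ‖(W' - W) * B * star W‖ ≤ δ * m * 1 := by
    refine (norm_mul_le _ _).trans ?_
    rw [norm_star]
    gcongr
    exact (norm_mul_le _ _).trans (by gcongr)
  linarith

theorem system_error (q D : ℕ) (hqD : q ≤ D) (j : ℕ) (b b0 : AA) {d : ℕ} (hdD : d ≤ D)
    (hb0 : InS d fun p x => ev p x b0) {ε : ℝ} (hε : 0 < ε) (hbb : ‖b - b0‖ ≤ ε / 8)
    (hq : ∀ p x, ‖extq q (fun p x => ev p x b) p x - ev p x b‖ ≤ ε / 2)
    (hD : 4 * Real.pi * ‖b‖ * j * (2 ^ D)⁻¹ ≤ ε / 4) :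
    ‖phiG q D hqD (psiG q D ((al^[j]) b)) - (al^[j]) b‖ ≤ ε := by
  refine AA.norm_le hε.le fun p x => ?_
  rw [map_sub, ev_phiG]
  set a := (al^[j]) b with ha
  have hA : (fun p (x : Pt p) => ev p x a) = fun p x =>
      wm p x ^ j * (fun p x => ev p x b) p x * star (wm p x ^ j) := by
    funext p x
    exact ev_al_iter j b p x
  have h1 : extq q (fun p x => ev p x a) p x
      = wm p x ^ j * extq q (fun p x => ev p x b) p x * star (wm p x ^ j) := by
    rw [hA, extq_conj]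
  have h2 : ‖extq q (fun p x => ev p x a) p x - ev p x a‖ ≤ ε / 2 := by
    rw [h1, ev_al_iter, ← mul_sub_right_distrib, ← mul_sub]
    refine (norm_mul_le _ _).trans ?_
    rw [norm_star]
    have e1 := norm_wm_pow_le p x j
    calc ‖wm p x ^ j * (extq q (fun p x => ev p x b) p x - ev p x b)‖ * ‖wm p x ^ j‖
        ≤ (1 * (ε / 2)) * 1 := by
          gcongr
          exact (norm_mul_le _ _).trans (by gcongr; exact hq p x)
      _ = ε / 2 := by ring
  have h3 : ‖extq q (fun p x => secG q D (psiG q D a) p x - ev p x a) p x‖ ≤ ε / 2 := by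
    refine norm_extq_le _ (by positivity) (fun p hp x => ?_) p x
    rw [secG, dif_pos hp, coH_psiG]
    set x' := rep (tr D x) with hx'
    have htr : tr D x' = tr D x := tr_rep x
    rw [ha, ev_al_iter, ev_al_iter]
    have e1 : ‖ev p x' b - ev p x b‖ ≤ ε / 4 := by
      have e2 : ev p x' b0 = ev p x b0 := (hb0.mono hdD).1 p (hp.trans hqD) x' x htr
      have e3 : ev p x' b - ev p x b = ev p x' (b - b0) - ev p x (b - b0) := by
        rw [map_sub, map_sub, e2]; abel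
      rw [e3]
      refine (norm_sub_le _ _).trans ?_
      have e4 := (b - b0).norm_ev p x'
      have e5 := (b - b0).norm_ev p x
      linarith
    refine (conj_dist _ _ _ _ (norm_wm_pow_le p x j) (norm_wm_pow_le p x' j) (b.norm_ev p x)
      (b.norm_ev p x') (wm_pow_dist htr j) e1).trans ?_
    have e6 : 2 * ‖b‖ * (2 * Real.pi * j * (2 ^ D)⁻¹) = 4 * Real.pi * ‖b‖ * j * (2 ^ D)⁻¹ := by
      ring
    rw [e6]
    linarith
  rw [extq_sub] at h3
  have h4 : extq q (secG q D (psiG q D a)) p x - ev p x a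
      = (extq q (fun p x => secG q D (psiG q D a) p x) p x - extq q (fun p x => ev p x a) p x)
      + (extq q (fun p x => ev p x a) p x - ev p x a) := by abel
  rw [h4]
  refine (norm_add_le _ _).trans ?_
  linarith

theorem GG_rank (q D : ℕ) : (GG q D).rank ≤ (q + 1) * (2 ^ q + 1) * (2 ^ D) ^ (2 ^ q) := by
  have h1 : (GG q D).rank = ∑ x : (Σ p : Fin (q + 1), (Fin (2 ^ (p : ℕ)) → Fin (2 ^ D))),
      Fintype.card (Ix x.1) := rfl
  rw [h1, Fintype.sum_sigma]
  have h2 : ∀ p : Fin (q + 1), ∑ t : (Fin (2 ^ (p : ℕ)) → Fin (2 ^ D)), Fintype.card (Ix p)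
      ≤ (2 ^ q + 1) * (2 ^ D) ^ (2 ^ q) := by
    intro p
    have hp : (p : ℕ) ≤ q := Nat.lt_succ_iff.1 p.2
    have h3 : 2 ^ (p : ℕ) ≤ 2 ^ q := Nat.pow_le_pow_right (by norm_num) hp
    rw [Finset.sum_const, Finset.card_univ, Fintype.card_fun, Fintype.card_fin, Fintype.card_fin,
      Fintype.card_option, Fintype.card_fin, smul_eq_mul, mul_comm]
    have h4 : (2 ^ D) ^ (2 ^ (p : ℕ)) ≤ (2 ^ D) ^ (2 ^ q) :=
      Nat.pow_le_pow_right (by positivity) h3
    exact Nat.mul_le_mul (by omega) h4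
  calc ∑ p : Fin (q + 1), ∑ t : (Fin (2 ^ (p : ℕ)) → Fin (2 ^ D)), Fintype.card (Ix p)
      ≤ ∑ p : Fin (q + 1), (2 ^ q + 1) * (2 ^ D) ^ (2 ^ q) := Finset.sum_le_sum fun p _ => h2 p
    _ = (q + 1) * (2 ^ q + 1) * (2 ^ D) ^ (2 ^ q) := by
      rw [Finset.sum_const, Finset.card_univ, Fintype.card_fin, smul_eq_mul, mul_assoc]

/-- polynomial growth of the ranks -/
theorem poly_growth (F : Finset AA) (ε : ℝ) (hε : 0 < ε) :
    ∃ K M : ℕ, ∀ n ≥ 1, ∃ r, HasCPA AA (orb al F n) ε r ∧ r ≤ K * n ^ M := by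
  classical
  have h1 : ∀ a : AA, ∃ d : ℕ, ∃ b : AA, InS d (fun p x => ev p x b) ∧ ‖a - b‖ ≤ ε / 8 :=
    fun a => a.approx (by positivity)
  choose d b hb hab using h1
  have h2 : ∀ a : AA, ∃ q0, ∀ q ≥ q0, ∀ p x,
      ‖extq q (fun p x => ev p x a) p x - ev p x a‖ ≤ ε / 2 :=
    fun a => extq_convA a (by positivity)
  choose q0 hq0 using h2
  have h3 : ∀ a : AA, ∃ e : ℕ, ∀ e' ≥ e, 4 * Real.pi * ‖a‖ * (2 ^ e')⁻¹ ≤ ε / 4 :=
    fun a => pow_two_inv_small (by positivity) _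
  choose e he using h3
  set q := F.sup q0 with hq
  set D0 := max q (max (F.sup d) (F.sup e)) with hD0
  refine ⟨(q + 1) * (2 ^ q + 1) * (2 ^ D0 * 2) ^ (2 ^ q), 2 ^ q, fun n hn => ?_⟩
  have hqD : q ≤ D0 + Nat.clog 2 n := (le_max_left _ _).trans (Nat.le_add_right _ _)
  refine ⟨_, ⟨GG q (D0 + Nat.clog 2 n), rfl, psiG _ _, phiG _ _ hqD, isCPC_psiG _ _,
    isCPC_phiG _ _ _, ?_⟩, ?_⟩
  · rintro _ ⟨j, hj, a, ha, rfl⟩
    have hd : d a ≤ D0 := (Finset.le_sup ha).trans ((le_max_left _ _).trans (le_max_right _ _))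
    have he' : e a ≤ D0 := (Finset.le_sup ha).trans ((le_max_right _ _).trans (le_max_right _ _))
    refine system_error _ _ hqD j a (b a) (hd.trans (Nat.le_add_right _ _)) (hb a) hε (hab a)
      (hq0 a q (Finset.le_sup ha)) ?_
    have e1 : (n : ℝ) ≤ 2 ^ Nat.clog 2 n := by exact_mod_cast Nat.le_pow_clog (by norm_num) n
    have e2 : (j : ℝ) ≤ n := by exact_mod_cast hj.le
    have e3 : (j : ℝ) * (2 ^ Nat.clog 2 n)⁻¹ ≤ 1 := by
      rw [← div_eq_mul_inv, div_le_one (by positivity)]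
      linarith
    rw [pow_add, mul_inv]
    calc 4 * Real.pi * ‖a‖ * j * ((2 ^ D0)⁻¹ * (2 ^ Nat.clog 2 n)⁻¹)
        = 4 * Real.pi * ‖a‖ * (2 ^ D0)⁻¹ * (j * (2 ^ Nat.clog 2 n)⁻¹) := by ring
      _ ≤ 4 * Real.pi * ‖a‖ * (2 ^ D0)⁻¹ * 1 := by gcongr
      _ ≤ ε / 4 := by rw [mul_one]; exact he a _ he'
  · refine (GG_rank _ _).trans ?_
    rw [mul_assoc ((q + 1) * (2 ^ q + 1)), ← mul_pow]
    refine Nat.mul_le_mul_left _ (Nat.pow_le_pow_left ?_ _)
    rw [pow_add, mul_assoc]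
    refine Nat.mul_le_mul_left _ ?_
    rcases Nat.lt_or_ge 1 n with h | h
    · have e1 := Nat.pow_pred_clog_lt_self (b := 2) (by norm_num) h
      have e2 : 0 < Nat.clog 2 n := Nat.clog_pos (by norm_num) h
      have e3 : 2 ^ Nat.clog 2 n = 2 ^ (Nat.clog 2 n).pred * 2 := by
        rw [← pow_succ]; congr 1; simp only [Nat.pred_eq_sub_one]; omega
      omega
    · have : n = 1 := by omega
      subst this
      simp

end Pool.Agent.KS6_81.EC
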