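import Pool.Agent.KS6_81.EC.SepG
import Pool.Agent.KS6_81.EC.Sec

/-! The elements `v_l` and their translates. -/

set_option autoImplicit false
set_option linter.unusedVariables false

open scoped Matrix.Norms.L2Operator ENNReal Matrix

noncomputable section

namespace Pool.Agent.KS6_81.EC

theorem sum_block {M N l : ℕ} (hM : 0 < M) (hl : (l + 1) * M ≤ N) (G : ℕ → ℝ) :
    ∑ i ∈ Finset.range N, (if i / M = l then G (i % M) else 0) = ∑ r ∈ Finset.range M, G r := by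
  rw [← Finset.sum_filter]
  refine Finset.sum_nbij' (fun i => i % M) (fun r => l * M + r) (fun i hi => ?_) (fun r hr => ?_)
    (fun i hi => ?_) (fun r hr => ?_) (fun i _ => rfl)
  · exact Finset.mem_range.2 (Nat.mod_lt _ hM)
  · have hr' := Finset.mem_range.1 hr
    refine Finset.mem_filter.2 ⟨Finset.mem_range.2 ?_, ?_⟩
    · rw [add_mul, one_mul] at hl
      omega
    · rw [mul_comm, Nat.mul_add_div hM, Nat.div_eq_of_lt hr', add_zero]
  · have h1 := (Finset.mem_filter.1 hi).2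
    have h2 := Nat.div_add_mod i M
    rw [h1, mul_comm] at h2
    exact h2
  · have hr' := Finset.mem_range.1 hr
    change (l * M + r) % M = r
    rw [mul_comm, Nat.mul_add_mod, Nat.mod_eq_of_lt hr']

theorem sum_blocks {E : Type} [AddCommMonoid E] (L M : ℕ) (f : ℕ → E) :
    ∑ u ∈ Finset.range (L * M), f u
      = ∑ l ∈ Finset.range L, ∑ c ∈ Finset.range M, f (l * M + c) := by
  induction L with
  | zero => simp
  | succ L ih =>
    rw [add_mul, one_mul, Finset.sum_range_add, ih, Finset.sum_range_succ]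

/-- the sections `v_l`: the cells below the cell `l` of level `2 m` -/
def vl (m l p : ℕ) : Mt p := Matrix.of fun i j =>
  match i, j with
  | some i, none => if 2 * m ≤ p ∧ (i : ℕ) / 2 ^ (p - 2 * m) = l then r2 ^ (p - 2 * m) else 0
  | _, _ => 0

theorem vl_sn (m l p : ℕ) (i : Fin (2 ^ p)) : vl m l p (some i) none
    = if 2 * m ≤ p ∧ (i : ℕ) / 2 ^ (p - 2 * m) = l then r2 ^ (p - 2 * m) else 0 := rfl

theorem vl_nn (m l p : ℕ) : vl m l p none none = 0 := rfl

theorem vl_s (m l p : ℕ) (i : Ix p) (j : Fin (2 ^ p)) : vl m l p i (some j) = 0 := by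
  rcases i with _ | i <;> rfl

theorem io_vl {m p : ℕ} (l : ℕ) (hp : 2 * m ≤ p) : jm p (vl m l p, 0) = vl m l (p + 1) := by
  have h0 : (Matrix.diagonal (0 : Fin (2 ^ p) → ℂ)) = 0 := Matrix.diagonal_zero
  rw [jm, h0, Matrix.mul_zero, Matrix.zero_mul, add_zero]
  ext s t
  rw [Matrix.mul_apply, Fintype.sum_option]
  have h1 : ∀ j, (io p * vl m l p) s (some j) = 0 := by
    intro j
    rw [Matrix.mul_apply]
    refine Finset.sum_eq_zero fun i _ => ?_
    rw [vl_s, mul_zero]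
  have h2 : (io p * vl m l p) s none = vl m l (p + 1) s none := by
    rw [Matrix.mul_apply, Fintype.sum_option]
    rcases s with _ | s
    · simp [vl_nn]
    · rw [Finset.sum_eq_single (par s)]
      · have e1 : (s : ℕ) / 2 ^ (p + 1 - 2 * m) = (par s : ℕ) / 2 ^ (p - 2 * m) := by
          change _ = (s : ℕ) / 2 / _
          rw [Nat.div_div_eq_div_mul, ← pow_succ', show p - 2 * m + 1 = p + 1 - 2 * m by omega]
        rw [vl_nn, vl_sn, vl_sn, e1, io_ss, if_pos rfl, mul_zero, zero_add,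
          show p + 1 - 2 * m = p - 2 * m + 1 by omega]
        by_cases h : (par s : ℕ) / 2 ^ (p - 2 * m) = l
        · rw [if_pos ⟨hp, h⟩, if_pos ⟨by omega, h⟩, pow_succ']
        · rw [if_neg (fun hh => h hh.2), if_neg (fun hh => h hh.2), mul_zero]
      · intro i _ hi
        simp [io_ss, Ne.symm hi]
      · simp
  simp only [h1, h2, zero_mul, Finset.sum_const_zero, add_zero]
  rcases t with _ | t
  · simp [Matrix.conjTranspose_apply]
  · rw [vl_s]
    simp [Matrix.conjTranspose_apply]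

theorem vl_InS (m l : ℕ) : InS (2 * m) fun p _ => vl m l p := by
  refine ⟨fun p hp x x' hx => rfl, fun p => (vl m l p, 0), fun p hp => ?_, fun p hp x => rfl⟩
  beta_reduce
  rw [jk, io_vl l hp]
  rfl

theorem norm_le_cO {p : ℕ} (T : Mt p) (h : ∀ i j, T i (some j) = 0) : ‖T‖ ≤ ‖cO T‖ := by
  have h1 : star T * T = ((‖cO T‖ ^ 2 : ℝ) : ℂ) • pm p := by
    ext i j
    rcases i with _ | i <;> rcases j with _ | j
    · rw [star_mul_00, Matrix.smul_apply, pm, Matrix.single_apply_same, smul_eq_mul, mul_one]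
    · rw [Matrix.mul_apply, Matrix.smul_apply]
      simp [h, pm]
    · rw [Matrix.mul_apply, Matrix.smul_apply]
      simp [h, pm, Matrix.star_apply]
    · rw [Matrix.mul_apply, Matrix.smul_apply]
      simp [h, pm, Matrix.star_apply]
  have h2 : ‖star T * T‖ = ‖T‖ * ‖T‖ := CStarRing.norm_star_mul_self
  rw [h1, norm_smul, Complex.norm_real, Real.norm_eq_abs, abs_of_nonneg (by positivity)] at h2
  have h3 := norm_pm_le p
  have h4 := norm_nonneg (cO T)
  have h5 := norm_nonneg T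
  have h6 : ‖T‖ ^ 2 ≤ ‖cO T‖ ^ 2 := by
    rw [sq ‖T‖, ← h2]
    have h7 : 0 ≤ ‖cO T‖ ^ 2 := by positivity
    nlinarith
  exact (sq_le_sq₀ h5 h4).1 h6

theorem norm_r2_pow_sq (k : ℕ) : ‖r2 ^ k‖ ^ 2 = (1 / 2) ^ k := by
  rw [norm_pow, ← pow_mul, mul_comm k 2, pow_mul, norm_r2_sq]

theorem norm_vl_le {m l : ℕ} (hl : l < 4 ^ m) (p : ℕ) : ‖vl m l p‖ ≤ 1 := by
  refine (norm_le_cO _ (vl_s m l p)).trans ?_
  have h1 : ‖cO (vl m l p)‖ ^ 2 ≤ 1 := by
    rw [norm_cO_sq', Fintype.sum_option, vl_nn]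
    simp only [vl_sn]
    by_cases hp : 2 * m ≤ p
    · have h2 : ∀ i : Fin (2 ^ p), ‖(if 2 * m ≤ p ∧ (i : ℕ) / 2 ^ (p - 2 * m) = l
          then r2 ^ (p - 2 * m) else 0 : ℂ)‖ ^ 2
          = (fun i : ℕ => if i / 2 ^ (p - 2 * m) = l then
            (fun _ : ℕ => (1 / 2 : ℝ) ^ (p - 2 * m)) (i % 2 ^ (p - 2 * m)) else 0) (i : ℕ) := by
        intro i
        beta_reduce
        by_cases h : (i : ℕ) / 2 ^ (p - 2 * m) = l
        · rw [if_pos ⟨hp, h⟩, if_pos h, norm_r2_pow_sq]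
        · rw [if_neg (fun hh => h hh.2), if_neg h]
          simp
      simp only [h2]
      have h4 : (l + 1) * 2 ^ (p - 2 * m) ≤ 2 ^ p := by
        have h3 : 2 ^ p = 4 ^ m * 2 ^ (p - 2 * m) := by
          rw [show (4 : ℕ) = 2 ^ 2 by norm_num, ← pow_mul, ← pow_add]
          congr 1
          omega
        rw [h3]
        exact Nat.mul_le_mul_right _ hl
      have h5 := sum_block (M := 2 ^ (p - 2 * m)) (N := 2 ^ p) (l := l) (by positivity) h4
        (fun _ => (1 / 2 : ℝ) ^ (p - 2 * m))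
      rw [Fin.sum_univ_eq_sum_range (fun i : ℕ => if i / 2 ^ (p - 2 * m) = l then
            (fun _ : ℕ => (1 / 2 : ℝ) ^ (p - 2 * m)) (i % 2 ^ (p - 2 * m)) else 0), h5]
      simp only [Finset.sum_const, Finset.card_range, nsmul_eq_mul]
      push_cast
      rw [← mul_pow]
      norm_num
    · simp [hp]
  have h2 := norm_nonneg (cO (vl m l p))
  nlinarith

/-- the elements `v_l` -/
def vlA (m : ℕ) (l : Fin (4 ^ m)) : AA :=
  ⟨mkA (fun p _ => vl m l p) 1 fun p x => norm_vl_le l.2 p, Sinf_le ⟨2 * m, vl_InS m l⟩⟩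

@[simp] theorem ev_vlA (m : ℕ) (l : Fin (4 ^ m)) (p : ℕ) (x : Pt p) :
    ev p x (vlA m l) = vl m l p := rfl

/-- translates of `v_l` with given frequencies -/
def vf (m l : ℕ) {p : ℕ} (θ : Fin (2 ^ p) → ℝ) (j : ℕ) : Mt p :=
  dg (fun i => ex (j * θ i)) * vl m l p * star (dg fun i => ex (j * θ i))

theorem vf_entry (m l : ℕ) {p : ℕ} (θ : Fin (2 ^ p) → ℝ) (j : ℕ) (i : Ix p) :
    vf m l θ j i none = i.elim 0 (fun i => ex (j * θ i) * vl m l p (some i) none) := by
  rw [vf, dg_star]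
  rw [dg, dg, Matrix.mul_diagonal, Matrix.diagonal_mul]
  rcases i with _ | i
  · simp [vl_nn]
  · simp

theorem norm_vf_le {m l : ℕ} (hl : l < 4 ^ m) {p : ℕ} (θ : Fin (2 ^ p) → ℝ) (j : ℕ) :
    ‖vf m l θ j‖ ≤ 1 := by
  rw [vf]
  refine (norm_mul_le _ _).trans ?_
  rw [norm_star]
  have h1 : ‖(dg fun i => ex (j * θ i) : Mt p)‖ ≤ 1 := norm_dg_le _ fun i => (norm_ex _).le
  have h2 : ‖dg (fun i => ex (j * θ i)) * vl m l p‖ ≤ 1 :=
    (norm_mul_le _ _).trans (mul_le_one₀ h1 (norm_nonneg _) (norm_vl_le hl p))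
  exact mul_le_one₀ h2 (norm_nonneg _) h1

theorem ev_alW_vlA (t : ℝ) (j m : ℕ) (l : Fin (4 ^ m)) (p : ℕ) (x : Pt p) :
    ev p x (((alW t)^[j]) (vlA m l)) = vf m l (fun i => t * gf (x.c i)) j := by
  rw [ev_alW_iter, ev_vlA, vf, wg]
  simp only [mul_assoc]

theorem norm_alW_vlA (t : ℝ) (j m : ℕ) (l : Fin (4 ^ m)) : ‖((alW t)^[j]) (vlA m l)‖ ≤ 1 := by
  refine AA.norm_le zero_le_one fun p x => ?_
  rw [ev_alW_vlA]
  exact norm_vf_le l.2 _ _

theorem vf_dist {m l : ℕ} (hl : l < 4 ^ m) {p : ℕ} (θ θ' : Fin (2 ^ p) → ℝ) (j : ℕ) {δ : ℝ}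
    (h : ∀ i, |θ i - θ' i| ≤ δ) : ‖vf m l θ j - vf m l θ' j‖ ≤ 4 * Real.pi * j * δ := by
  have h1 : ∀ θ : Fin (2 ^ p) → ℝ, ‖(dg fun i => ex (j * θ i) : Mt p)‖ ≤ 1 :=
    fun θ => norm_dg_le _ fun i => (norm_ex _).le
  have hδ : 0 ≤ δ := (abs_nonneg _).trans (h ⟨0, by positivity⟩)
  have h2 : ‖(dg fun i => ex (j * θ i) : Mt p) - dg fun i => ex (j * θ' i)‖
      ≤ 2 * Real.pi * j * δ := by
    refine norm_dg_sub_le _ _ (by positivity) fun i => ?_
    refine (ex_sub_le _ _).trans ?_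
    rw [← mul_sub, abs_mul, Nat.abs_cast, mul_assoc (2 * Real.pi)]
    have := h i
    gcongr
  have h3 := conj_dist (m := 1) (η := 0) _ _ (vl m l p) (vl m l p) (h1 θ') (h1 θ)
    (norm_vl_le hl p) (norm_vl_le hl p) h2 (by simp)
  rw [vf, vf]
  refine h3.trans (le_of_eq ?_)
  ring

/-- residues -/
def rho {n : ℕ} (hn : 0 < n) (z : ℤ) : Fin n :=
  ⟨(z % n).toNat, by
    have h1 := Int.emod_nonneg z (show (n : ℤ) ≠ 0 by omega)
    have h2 := Int.emod_lt_of_pos z (show (0 : ℤ) < n by omega)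
    omega⟩

theorem rho_iff {n : ℕ} (hn : 0 < n) (z : ℤ) (s : Fin n) :
    s = rho hn z ↔ (n : ℤ) ∣ z - ((s : ℕ) : ℤ) := by
  have h1 := Int.emod_nonneg z (show (n : ℤ) ≠ 0 by omega)
  have h2 := Int.emod_lt_of_pos z (show (0 : ℤ) < n by omega)
  have h3 := Int.emod_add_mul_ediv z n
  have h4 := s.2
  constructor
  · intro h
    have h5 : (s : ℕ) = (z % n).toNat := congrArg Fin.val h
    refine ⟨z / n, ?_⟩
    have h6 : ((s : ℕ) : ℤ) = z % n := by rw [h5, Int.toNat_of_nonneg h1]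
    rw [h6]
    linarith
  · intro h
    refine Fin.ext ?_
    change (s : ℕ) = (z % n).toNat
    have h5 : z % n = ((s : ℕ) : ℤ) := by
      have h6 := Int.emod_emod_of_dvd z (dvd_refl (n : ℤ))
      have h7 : z % n = ((s : ℕ) : ℤ) % n := Int.ModEq.symm ((Int.modEq_iff_dvd).2 h)
      rw [h7, Int.emod_eq_of_lt (by positivity) (by exact_mod_cast h4)]
    rw [h5, Int.toNat_natCast]

theorem rho_inj {n : ℕ} (hn : 0 < n) {z z' : ℤ} (h : rho hn z = rho hn z') :
    (n : ℤ) ∣ z - z' := by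
  have h1 := (rho_iff hn z (rho hn z)).1 rfl
  have h2 := (rho_iff hn z' (rho hn z)).1 h
  have h3 : z - z' = (z - ((rho hn z : ℕ) : ℤ)) - (z' - ((rho hn z : ℕ) : ℤ)) := by ring
  rw [h3]
  exact dvd_sub h1 h2

theorem hat_vf_entry (m l : ℕ) {p n : ℕ} (hn : 0 < n) (κ : Fin (2 ^ p) → ℤ) (s : Fin n)
    (i : Ix p) : (hat (fun j : Fin n => vf m l (fun i => (κ i : ℝ) / n) j) s) i none
      = i.elim 0 (fun i => if s = rho hn (κ i) then (n : ℂ) * vl m l p (some i) none else 0) := by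
  rw [hat, Matrix.sum_apply]
  simp only [Matrix.smul_apply, vf_entry, smul_eq_mul]
  rcases i with _ | i
  · simp
  · simp only [Option.elim_some]
    have h1 : ∀ j : Fin n, chi s j * (ex ((j : ℕ) * ((κ i : ℝ) / n)) * vl m l p (some i) none)
        = ex (j * (((κ i - ((s : ℕ) : ℤ) : ℤ) : ℝ) / n)) * vl m l p (some i) none := by
      intro j
      rw [← mul_assoc, chi, ← ex_add]
      congr 2
      push_cast
      ring
    simp only [h1, ← Finset.sum_mul]
    by_cases h : s = rho hn (κ i)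
    · rw [if_pos h]
      obtain ⟨w, hw⟩ := (rho_iff hn _ _).1 h
      have h2 : ∀ j : Fin n, ex (j * (((κ i - ((s : ℕ) : ℤ) : ℤ) : ℝ) / n)) = 1 := by
        intro j
        rw [hw]
        have hn' : (n : ℝ) ≠ 0 := by positivity
        have h3 : ((j : ℕ) : ℝ) * (((n * w : ℤ) : ℝ) / n) = (((j : ℕ) * w : ℤ) : ℝ) := by
          push_cast
          field_simp
        rw [h3, ex_int]
      simp only [h2]
      simp
    · rw [if_neg h, sum_ex hn _ (fun hd => h ((rho_iff hn _ _).2 hd)), zero_mul]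

end Pool.Agent.KS6_81.EC
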